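import Pool.Agent.R974.Span.Inv3

/-!
# Waiting time for bridge patterns (MP_ceed31_pr): definitions and the discrete intermediate value
lemma
-/

open MeasureTheory ProbabilityTheory Filter Topology Set
open scoped ENNReal NNReal

namespace Pool.Agent.R986.BP

/-- `λ_n = ⌊λ√n⌋` if this integer has the parity of `n`, and `⌊λ√n⌋ + 1` otherwise. -/
noncomputable def lamn (l : ℝ) (n : ℕ) : ℤ :=
  if Even (⌊l * √(n : ℝ)⌋ - (n : ℤ)) then ⌊l * √(n : ℝ)⌋ else ⌊l * √(n : ℝ)⌋ + 1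

/-- The first `k ≥ n` with `z k - z (k - n) = m` (`⊤` if there is none). -/
noncomputable def hit (n : ℕ) (m : ℤ) (z : ℕ → ℤ) : ℝ≥0∞ :=
  ⨅ (k : ℕ) (_ : n ≤ k ∧ z k - z (k - n) = m), (k : ℝ≥0∞)

/-- `inf {t > 0 : g (t + 1) - g t = l}` (`⊤` if there is none). -/
noncomputable def hitB (l : ℝ) (g : ℝ≥0 → ℝ) : ℝ≥0∞ :=
  ⨅ (t : ℝ≥0) (_ : 0 < t ∧ g (t + 1) - g t = l), (t : ℝ≥0∞)

/-- `±1` steps up to time `N`. -/
def PM (N : ℕ) (z : ℕ → ℤ) : Prop := ∀ k < N, z (k + 1) - z k = 1 ∨ z (k + 1) - z k = -1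

/-- The truncated and rescaled waiting time (`K` windows of length `N / K`). -/
noncomputable def Phi (K : ℕ) (l : ℝ) (N : ℕ) (z : ℕ → ℤ) : ℝ :=
  (min (hit (N / K) (lamn l (N / K)) z) (N : ℝ≥0∞)).toReal / N

/-- Its continuous counterpart. -/
noncomputable def yK (K : ℕ) (l : ℝ) (g : ℝ≥0 → ℝ) : ℝ :=
  (min (1 + hitB l g) (K : ℝ≥0∞)).toReal / K

/-- Regular paths: `l` is not attained at time `0` and is not a local extremum value of
`t ↦ g (t + 1) - g t`. -/
def Reg (l : ℝ) (g : ℝ≥0 → ℝ) : Prop :=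
  Continuous g ∧ g 0 = 0 ∧ g 1 - g 0 ≠ l ∧
    ∀ t : ℝ≥0, 0 < t → g (t + 1) - g t = l → ∀ ε > (0 : ℝ),
      (∃ s : ℝ≥0, |(s : ℝ) - t| < ε ∧ l < g (s + 1) - g s) ∧
      (∃ s : ℝ≥0, |(s : ℝ) - t| < ε ∧ g (s + 1) - g s < l)

/-- `λ_n` is within `1` of `λ√n`. -/
theorem lamn_close (l : ℝ) (n : ℕ) : |(lamn l n : ℝ) - l * √(n : ℝ)| ≤ 1 := by
  have h1 := Int.floor_le (l * √(n : ℝ))
  have h2 := Int.lt_floor_add_one (l * √(n : ℝ))
  unfold lamn
  rw [abs_le]
  split_ifs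
  · constructor <;> linarith
  · push_cast
    constructor <;> linarith

/-- `λ_n` has the parity of `n`. -/
theorem lamn_parity (l : ℝ) (n : ℕ) : Even (lamn l n - (n : ℤ)) := by
  unfold lamn
  split_ifs with h
  · exact h
  · have h' : Odd (⌊l * √(n : ℝ)⌋ - (n : ℤ)) := Int.not_even_iff_odd.1 h
    have : ⌊l * √(n : ℝ)⌋ + 1 - (n : ℤ) = (⌊l * √(n : ℝ)⌋ - (n : ℤ)) + 1 := by ring
    rw [this]
    exact h'.add_one

theorem parity_window {N : ℕ} {z : ℕ → ℤ} (hz : PM N z) (n : ℕ) :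
    ∀ k ≤ N, n ≤ k → Even (z k - z (k - n) - (n : ℤ)) := by
  have key : ∀ j i : ℕ, i + j ≤ N → Even (z (i + j) - z i - (j : ℤ)) := by
    intro j
    induction j with
    | zero => intro i _; simp
    | succ j ih =>
      intro i hi
      have h1 := ih i (by omega)
      have h2 := hz (i + j) (by omega)
      have e : z (i + (j + 1)) - z i - ((j + 1 : ℕ) : ℤ) =
          (z (i + j) - z i - (j : ℤ)) + ((z (i + j + 1) - z (i + j)) - 1) := by
        rw [show i + (j + 1) = i + j + 1 by ring]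
        push_cast
        ring
      rw [e]
      refine h1.add ?_
      rcases h2 with h2 | h2 <;> rw [h2] <;> decide
  intro k hk hnk
  have := key n (k - n) (by omega)
  rw [Nat.sub_add_cancel hnk] at this
  exact this

/-- Discrete intermediate value lemma: windows of a `±1` path cannot jump over a level of the
right parity. -/
theorem window_ivt {N : ℕ} {z : ℕ → ℤ} (hz : PM N z) {n : ℕ} {m : ℤ} (hm : Even (m - (n : ℤ)))
    {p q : ℕ} (hnp : n ≤ p) (hpq : p ≤ q) (hqN : q ≤ N)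
    (h : (z p - z (p - n) ≤ m ∧ m ≤ z q - z (q - n)) ∨
      (m ≤ z p - z (p - n) ∧ z q - z (q - n) ≤ m)) :
    ∃ k, p ≤ k ∧ k ≤ q ∧ z k - z (k - n) = m := by
  have key : ∀ q, p ≤ q → q ≤ N → (z p - z (p - n) ≤ m ∧ m ≤ z q - z (q - n)) ∨
      (m ≤ z p - z (p - n) ∧ z q - z (q - n) ≤ m) → ∃ k, p ≤ k ∧ k ≤ q ∧ z k - z (k - n) = m := by
    intro q hpq
    induction q, hpq using Nat.le_induction with
    | base =>
      intro _ h
      refine ⟨p, le_rfl, le_rfl, ?_⟩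
      rcases h with ⟨h1, h2⟩ | ⟨h1, h2⟩ <;> omega
    | succ q hpq ih =>
      intro hqN h
      by_cases hc : (z p - z (p - n) ≤ m ∧ m ≤ z q - z (q - n)) ∨
          (m ≤ z p - z (p - n) ∧ z q - z (q - n) ≤ m)
      · obtain ⟨k, h1, h2, h3⟩ := ih (by omega) hc
        exact ⟨k, h1, by omega, h3⟩
      · refine ⟨q + 1, by omega, le_rfl, ?_⟩
        have e1 := parity_window hz n q (by omega) (by omega)
        have e2 := parity_window hz n (q + 1) hqN (by omega)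
        have s1 := hz q (by omega)
        have s2 := hz (q - n) (by omega)
        have hq : q + 1 - n = q - n + 1 := by omega
        rw [hq] at h e2 ⊢
        obtain ⟨u1, hu1⟩ := e1
        obtain ⟨u2, hu2⟩ := e2
        obtain ⟨u3, hu3⟩ := hm
        rw [not_or, not_and_or, not_and_or] at hc
        rcases h with ⟨h1, h2⟩ | ⟨h1, h2⟩ <;> rcases s1 with s1 | s1 <;> rcases s2 with s2 | s2 <;>
          rcases hc with ⟨hc1, hc2⟩ <;> omega
  exact key q hpq hqN h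

end Pool.Agent.R986.BP
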