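import Pool.Agent.R986.BP.Defs

/-!
BP-EXT (MP_ceed31_pr): almost surely `l` is not a local extremum value of `t ↦ B (t + 1) - B t`.
-/

open MeasureTheory ProbabilityTheory Filter Topology Set
open scoped ENNReal NNReal

namespace Pool.Agent.R986.BP

open Pool.Agent.R974.Span

namespace Ext

section
variable {Ω : Type*} [MeasurableSpace Ω] {P : Measure Ω} {B : ℝ≥0 → Ω → ℝ}

/-- conditional version: for a fixed past `f` -/
lemma noatom_fixed (hB : GBM B P) (p q : ℝ≥0) (f : ℝ≥0 → ℝ) (l : ℝ) :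
    P {ω | B (1 / 2) ω + mx (fun t => (B (1 / 2 + (t - p)) ω - B (1 / 2) ω) + f t) p q = l} = 0 := by
  have := hB.prob
  set W : Ω → ℝ := fun ω => mx (fun t => (B (1 / 2 + (t - p)) ω - B (1 / 2) ω) + f t) p q with hW
  have hψ : Measurable (fun w : (ℝ≥0 → ℝ) => mx (fun t => w (t - p) + f t) p q) := by
    have h0 : Measurable (fun (w : ℝ≥0 → ℝ) (t : ℝ≥0) => w (t - p) + f t) := by
      refine measurable_pi_iff.mpr fun t => ?_
      exact (measurable_pi_apply (t - p)).add measurable_const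
    exact (measurable_mx p q).comp h0
  have hVB := hB.shift (1 / 2)
  have hWm : Measurable W := hψ.comp (measurable_pi_lambda _ fun t => hVB.meas t)
  have hind : IndepFun (B (1 / 2)) W P := by
    have h1 := (hB.pre.indepFun_shift (1 / 2)).symm
    have hφ : Measurable (fun g : (Set.Iic (1 / 2 : ℝ≥0) → ℝ) =>
        g ⟨1 / 2, Set.mem_Iic.mpr le_rfl⟩) := by fun_prop
    exact h1.comp hφ hψ
  have h2 : {ω | B (1 / 2) ω + W ω = l} = {ω | B (1 / 2) ω = l - W ω} := by
    ext ω
    simp only [Set.mem_ofPred_eq]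
    constructor <;> intro h <;> linarith
  rw [h2]
  apply noatom (hB.meas _) (measurable_const.sub hWm)
  · exact hind.comp measurable_id (measurable_const.sub measurable_id)
  · exact eval_noatom hB (by norm_num)

/-- the maximum of `B (t + 1) - B t` over a short interval has no atoms -/
lemma dmx_noatom (hB : GBM B P) {p q : ℝ≥0} (hpq : p ≤ q) (hq : q ≤ p + 1 / 2) (l : ℝ) :
    P {ω | mx (fun t => B (t + 1) ω - B t ω) p q = l} = 0 := by
  have := hB.prob
  set a : ℝ≥0 := p + 1 / 2 with ha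
  have hsh := hB.shift a
  -- the past and the shifted path
  set X : Ω → (Set.Iic a → ℝ) := fun ω t => B t ω with hX
  set Y : Ω → (ℝ≥0 → ℝ) := fun ω t => B (a + t) ω - B a ω with hY
  have hXm : Measurable X := measurable_pi_lambda _ fun t => hB.meas t
  have hYm : Measurable Y := measurable_pi_lambda _ fun t => hsh.meas t
  have hind : IndepFun X Y P := (hB.pre.indepFun_shift a).symm
  have hmap := (indepFun_iff_map_prod_eq_prod_map_map hXm.aemeasurable hYm.aemeasurable).mp hind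
  -- the functional
  set Φ : (Set.Iic a → ℝ) × (ℝ≥0 → ℝ) → ℝ := fun z =>
    z.2 (1 / 2) + mx (fun t => (z.2 (1 / 2 + (t - p)) - z.2 (1 / 2)) +
      (z.1 ⟨a, Set.mem_Iic.mpr le_rfl⟩ - z.1 ⟨min t a, Set.mem_Iic.mpr (min_le_right _ _)⟩)) p q
    with hΦ
  have hΦm : Measurable Φ := by
    refine Measurable.add ((measurable_pi_apply _).comp measurable_snd) ?_
    have h0 : Measurable (fun (z : (Set.Iic a → ℝ) × (ℝ≥0 → ℝ)) (t : ℝ≥0) =>
        (z.2 (1 / 2 + (t - p)) - z.2 (1 / 2)) + (z.1 ⟨a, Set.mem_Iic.mpr le_rfl⟩ -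
          z.1 ⟨min t a, Set.mem_Iic.mpr (min_le_right _ _)⟩)) := by
      refine measurable_pi_iff.mpr fun t => ?_
      refine Measurable.add (Measurable.sub ((measurable_pi_apply _).comp measurable_snd)
        ((measurable_pi_apply _).comp measurable_snd)) ?_
      exact Measurable.sub ((measurable_pi_apply _).comp measurable_fst)
        ((measurable_pi_apply _).comp measurable_fst)
    exact (measurable_mx p q).comp h0
  have hS : MeasurableSet {z | Φ z = l} := hΦm (measurableSet_singleton l)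
  have hdec : ∀ ω, mx (fun t => B (t + 1) ω - B t ω) p q = Φ (X ω, Y ω) := by
    intro ω
    have hcB := hB.cont ω
    set V : ℝ≥0 → ℝ := fun t => (Y ω (1 / 2 + (t - p)) - Y ω (1 / 2)) +
      (X ω ⟨a, Set.mem_Iic.mpr le_rfl⟩ - X ω ⟨min t a, Set.mem_Iic.mpr (min_le_right _ _)⟩) with hV
    have hVc : Continuous V := by
      have e : V = fun t => ((B (a + (1 / 2 + (t - p))) ω - B a ω) - (B (a + 1 / 2) ω - B a ω)) +
        (B a ω - B (min t a) ω) := rfl
      rw [e]
      fun_prop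
    have hpt : ∀ t, p ≤ t → t ≤ q → B (t + 1) ω - B t ω = Y ω (1 / 2) + V t := by
      intro t h1 h2
      have h3 : a + (1 / 2 + (t - p)) = t + 1 := by
        rw [← NNReal.coe_inj, ha]
        push_cast [NNReal.coe_sub h1]
        ring
      have h4 : min t a = t := min_eq_left (h2.trans hq)
      have e : V t = ((B (a + (1 / 2 + (t - p))) ω - B a ω) - (B (a + 1 / 2) ω - B a ω)) +
        (B a ω - B (min t a) ω) := rfl
      have e2 : Y ω (1 / 2) = B (a + 1 / 2) ω - B a ω := rfl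
      rw [e, e2, h3, h4]
      ring
    show _ = Y ω (1 / 2) + mx V p q
    apply le_antisymm
    · apply mx_le hpq
      intro s h1 h2
      rw [hpt s h1 h2]
      have := le_mx hVc h1 h2
      linarith
    · have h4 : mx V p q ≤ mx (fun t => B (t + 1) ω - B t ω) p q - Y ω (1 / 2) := by
        apply mx_le hpq
        intro s h1 h2
        have h6 := le_mx (w := fun t => B (t + 1) ω - B t ω) (by fun_prop) (a := p) (b := q) (s := s)
          h1 h2
        have h7 := hpt s h1 h2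
        linarith
      linarith
  have h1 : {ω | mx (fun t => B (t + 1) ω - B t ω) p q = l} =
      (fun ω => (X ω, Y ω)) ⁻¹' {z | Φ z = l} := by
    ext ω
    simp only [Set.mem_ofPred_eq, Set.mem_preimage, hdec]
  rw [h1, ← Measure.map_apply (hXm.prodMk hYm) hS, hmap, Measure.prod_apply hS]
  rw [lintegral_eq_zero_iff (measurable_measure_prodMk_left hS)]
  filter_upwards with x
  rw [Measure.map_apply hYm (measurable_prodMk_left hS)]
  have h2 := noatom_fixed hsh p q
    (fun t => x ⟨a, Set.mem_Iic.mpr le_rfl⟩ - x ⟨min t a, Set.mem_Iic.mpr (min_le_right _ _)⟩) l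
  exact h2

end

/-- no maximum over a short rational interval equals `l` -/
def NE (l : ℝ) (g : ℝ≥0 → ℝ) : Prop :=
  ∀ p q : ℚ, (p : ℝ).toNNReal ≤ (q : ℝ).toNNReal →
    (q : ℝ).toNNReal ≤ (p : ℝ).toNNReal + 1 / 2 →
    mx (fun t => g (t + 1) - g t) (p : ℝ).toNNReal (q : ℝ).toNNReal ≠ l

lemma ae_NE {Ω : Type*} [MeasurableSpace Ω] {P : Measure Ω} {B : ℝ≥0 → Ω → ℝ} (hB : GBM B P)
    (l : ℝ) : ∀ᵐ ω ∂P, NE l (fun t => B t ω) := by
  unfold NE
  simp only [ae_all_iff, eventually_imp_distrib_left]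
  intro p q h1 h2
  rw [ae_iff]
  simpa using dmx_noatom hB h1 h2 l

lemma exists_gt {g : ℝ≥0 → ℝ} (hg : Continuous g) {l : ℝ} (h : NE l g) {t : ℝ≥0} (ht : 0 < t)
    (hl : g (t + 1) - g t = l) {ε : ℝ} (hε : 0 < ε) :
    ∃ s : ℝ≥0, |(s : ℝ) - t| < ε ∧ l < g (s + 1) - g s := by
  by_contra hcon
  push Not at hcon
  have ht' : (0 : ℝ) < t := by exact_mod_cast ht
  set r : ℝ := min ε (min (t : ℝ) (1 / 4)) with hr
  have hr0 : 0 < r := lt_min hε (lt_min ht' (by norm_num))
  have hrε : r ≤ ε := min_le_left _ _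
  have hrt : r ≤ t := (min_le_right _ _).trans (min_le_left _ _)
  have hr4 : r ≤ 1 / 4 := (min_le_right _ _).trans (min_le_right _ _)
  obtain ⟨p, hp1, hp2⟩ := exists_rat_btwn (show (t : ℝ) - r < t by linarith)
  obtain ⟨q, hq1, hq2⟩ := exists_rat_btwn (show (t : ℝ) < t + r by linarith)
  have ep : (((p : ℝ).toNNReal : ℝ≥0) : ℝ) = p := Real.coe_toNNReal _ (by linarith)
  have eq : (((q : ℝ).toNNReal : ℝ≥0) : ℝ) = q := Real.coe_toNNReal _ (by linarith)
  have hpt : (p : ℝ).toNNReal ≤ t := by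
    rw [← NNReal.coe_le_coe, ep]; exact hp2.le
  have htq : t ≤ (q : ℝ).toNNReal := by
    rw [← NNReal.coe_le_coe, eq]; exact hq1.le
  have hqp : (q : ℝ).toNNReal ≤ (p : ℝ).toNNReal + 1 / 2 := by
    rw [← NNReal.coe_le_coe]
    push_cast
    rw [ep, eq]
    linarith
  apply h p q (hpt.trans htq) hqp
  apply le_antisymm
  · apply mx_le (hpt.trans htq)
    intro s h1 h2
    apply hcon
    have g1 : (p : ℝ) ≤ s := by rw [← ep]; exact_mod_cast h1
    have g2 : (s : ℝ) ≤ q := by rw [← eq]; exact_mod_cast h2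
    rw [abs_lt]
    constructor <;> linarith
  · have := le_mx (w := fun t => g (t + 1) - g t) (by fun_prop) hpt htq
    rw [← hl]
    exact this

end Ext

theorem ae_reg {Ω : Type*} [MeasurableSpace Ω] {P : Measure Ω} {B : ℝ≥0 → Ω → ℝ} (hB : GBM B P)
    (l : ℝ) : ∀ᵐ ω ∂P, Reg l (fun t => B t ω) := by
  have h0 : ∀ᵐ ω ∂P, B 1 ω ≠ l := by
    rw [ae_iff]
    simpa using eval_noatom hB (c := 1) one_pos l
  filter_upwards [h0, Ext.ae_NE hB l, Ext.ae_NE hB.neg (-l)] with ω h1 h2 h3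
  refine ⟨hB.cont ω, hB.zero ω, ?_, ?_⟩
  · show B 1 ω - B 0 ω ≠ l
    rw [hB.zero ω, sub_zero]
    exact h1
  · intro t ht hl ε hε
    refine ⟨Ext.exists_gt (hB.cont ω) h2 ht hl hε, ?_⟩
    have hl' : (-B) (t + 1) ω - (-B) t ω = -l := by
      have : B (t + 1) ω - B t ω = l := hl
      show -B (t + 1) ω - -B t ω = -l
      linarith
    obtain ⟨s, hs1, hs2⟩ := Ext.exists_gt (hB.neg.cont ω) h3 ht hl' hε
    refine ⟨s, hs1, ?_⟩
    have h4 : -l < -B (s + 1) ω - -B s ω := hs2
    show B (s + 1) ω - B s ω < l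
    linarith

end Pool.Agent.R986.BP
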