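import Pool.Agent.R986.BP.Defs

/-!
# Waiting time for bridge patterns (MP_ceed31_pr): measurability of the continuous waiting time
-/

open MeasureTheory ProbabilityTheory Filter Topology Set
open scoped ENNReal NNReal

namespace Pool.Agent.R986.BP

open Pool.Agent.R974.Span

/-- minus the distance to the level up to time `t` -/
noncomputable def mgap (l : ℝ) (t : ℝ≥0) (g : ℝ≥0 → ℝ) : ℝ :=
  mx (fun s => -|g (s + 1) - g s - l|) 0 t

theorem mgap_eq_zero_iff {l : ℝ} {g : ℝ≥0 → ℝ} (hg : Continuous g) (t : ℝ≥0) :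
    mgap l t g = 0 ↔ ∃ s ≤ t, g (s + 1) - g s = l := by
  have hc : Continuous (fun s : ℝ≥0 => -|g (s + 1) - g s - l|) := by fun_prop
  constructor
  · intro h
    obtain ⟨s, hs, hmax⟩ := (isCompact_Icc (a := (0 : ℝ≥0)) (b := t)).exists_isMaxOn
      ⟨0, le_rfl, zero_le⟩ hc.continuousOn
    refine ⟨s, hs.2, ?_⟩
    have h1 : mgap l t g ≤ -|g (s + 1) - g s - l| :=
      mx_le zero_le fun u hu1 hu2 => hmax ⟨hu1, hu2⟩
    have h2 := abs_nonneg (g (s + 1) - g s - l)
    have h3 : |g (s + 1) - g s - l| = 0 := by linarith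
    have h4 := abs_eq_zero.1 h3
    linarith
  · rintro ⟨s, hs, h⟩
    apply le_antisymm
    · exact mx_le zero_le fun u _ _ => by
        have := abs_nonneg (g (u + 1) - g u - l)
        linarith
    · have h1 := le_mx (w := fun s => -|g (s + 1) - g s - l|) hc (a := 0) (b := t) (s := s)
        zero_le hs
      have h2 : -|g (s + 1) - g s - l| = 0 := by
        rw [h]; simp
      simp only [h2] at h1
      exact h1

open Classical in
/-- a countable form of the waiting time -/
noncomputable def hitQ (l : ℝ) (g : ℝ≥0 → ℝ) : ℝ≥0∞ :=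
  ⨅ n : ℕ, if mgap l (dq n) g = 0 then (dq n : ℝ≥0∞) else ⊤

theorem hitQ_eq {l : ℝ} {g : ℝ≥0 → ℝ} (hg : Continuous g) (h1 : g 1 - g 0 ≠ l) :
    hitB l g = hitQ l g := by
  apply le_antisymm
  · refine le_iInf fun n => ?_
    split_ifs with h
    · obtain ⟨s, hs, h2⟩ := (mgap_eq_zero_iff hg _).1 h
      have hs0 : 0 < s := by
        rcases eq_or_lt_of_le (zero_le (a := s)) with h3 | h3
        · exfalso
          rw [← h3, zero_add] at h2
          exact h1 h2
        · exact h3
      calc hitB l g ≤ (s : ℝ≥0∞) := iInf₂_le s ⟨hs0, h2⟩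
        _ ≤ (dq n : ℝ≥0∞) := by exact_mod_cast hs
    · exact le_top
  · refine le_iInf₂ fun t ht => ?_
    refine le_of_forall_gt fun c hc => ?_
    obtain ⟨r, hr1, hr2⟩ := ENNReal.lt_iff_exists_nnreal_btwn.1 hc
    have hr1' : t < r := by exact_mod_cast hr1
    obtain ⟨z, ⟨n, rfl⟩, hz1, hz2⟩ := dense_dq.exists_between hr1'
    have h3 : mgap l (dq n) g = 0 := (mgap_eq_zero_iff hg _).2 ⟨t, hz1.le, ht.2⟩
    calc hitQ l g ≤ (dq n : ℝ≥0∞) := by
          refine (iInf_le _ n).trans ?_
          rw [if_pos h3]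
      _ < (r : ℝ≥0∞) := by exact_mod_cast hz2
      _ < c := hr2

theorem aemeas_hitB {Ω : Type*} [MeasurableSpace Ω] {P : Measure Ω} {B : ℝ≥0 → Ω → ℝ}
    (hB : GBM B P) (l : ℝ) : AEMeasurable (fun ω => hitB l (fun t => B t ω)) P := by
  refine ⟨fun ω => hitQ l (fun t => B t ω), ?_, ?_⟩
  · unfold hitQ
    refine Measurable.iInf fun n => ?_
    refine Measurable.ite ?_ measurable_const measurable_const
    have hm : Measurable (fun ω => mgap l (dq n) (fun t => B t ω)) := by
      unfold mgap
      have hpi : Measurable (fun (ω : Ω) (s : ℝ≥0) => -|B (s + 1) ω - B s ω - l|) := by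
        refine measurable_pi_lambda _ fun s => ?_
        have h1 := hB.meas (s + 1)
        have h2 := hB.meas s
        have h3 : Measurable (fun ω => B (s + 1) ω - B s ω - l) := (h1.sub h2).sub_const l
        exact (continuous_abs.measurable.comp h3).neg
      exact (measurable_mx 0 (dq n)).comp hpi
    exact hm (measurableSet_singleton 0)
  · have h0 : ∀ᵐ ω ∂P, B 1 ω ≠ l := by
      rw [ae_iff]
      have := eval_noatom hB (c := 1) one_pos l
      simpa using this
    filter_upwards [h0] with ω hω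
    refine hitQ_eq (hB.cont ω) ?_
    rw [hB.zero ω, sub_zero]
    exact hω

end Pool.Agent.R986.BP
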