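import Pool.Agent.R986.BP.Defs

/-!
# Deterministic stability of the waiting time
-/

set_option autoImplicit false

open MeasureTheory ProbabilityTheory Filter Topology Set
open scoped ENNReal NNReal

namespace Pool.Agent.R986.BP

namespace StabAux

/-- increments over windows of length one -/
noncomputable def Dg (g : ℝ≥0 → ℝ) (t : ℝ≥0) : ℝ := g (t + 1) - g t

/-- rescaled time -/
noncomputable def tk (n k : ℕ) : ℝ≥0 := ((k - n : ℕ) : ℝ≥0) / (n : ℝ≥0)

/-- closeness of the discrete and of the continuous windows -/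
def Hyp (K : ℕ) (l : ℝ) (g : ℝ≥0 → ℝ) (N : ℕ) (a : ℝ) (z : ℕ → ℤ) (η : ℝ) : Prop :=
  ∀ k : ℕ, N / K ≤ k → k ≤ N →
    |√(K : ℝ) * a * (((z k - z (k - N / K) : ℤ) : ℝ) - (lamn l (N / K) : ℝ)) -
      (Dg g (tk (N / K) k) - l)| < η

theorem key (l : ℝ) (K : ℕ) (hK : 0 < K) (g : ℝ≥0 → ℝ) (η : ℝ) (hη : 0 < η) :
    ∃ δ > (0 : ℝ), ∃ N0 : ℕ, ∀ N ≥ N0, 0 < N → K ∣ N → ∀ a > (0 : ℝ), |a * √(N : ℝ) - 1| ≤ δ →
      ∀ z : ℕ → ℤ,
      (∀ k ≤ N, |a * z k - (√(K : ℝ))⁻¹ * g ((K : ℝ≥0) * ((k : ℝ≥0) / N))| ≤ δ) →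
      Hyp K l g N a z η := by
  set r : ℝ := √(K : ℝ) with hr
  have hr0 : 0 < r := Real.sqrt_pos.2 (by exact_mod_cast hK)
  set δ : ℝ := min 1 (η / (4 * (2 * r + |l| + 1))) with hδ
  have hden : 0 < 4 * (2 * r + |l| + 1) := by positivity
  have hδ0 : 0 < δ := lt_min one_pos (by positivity)
  have hδ1 : δ ≤ 1 := min_le_left _ _
  have hδ2 : (2 * r + |l| + 1) * δ ≤ η / 4 := by
    have : δ ≤ η / (4 * (2 * r + |l| + 1)) := min_le_right _ _
    rw [le_div_iff₀ hden] at this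
    linarith
  refine ⟨δ, hδ0, ⌈(8 * r / η) ^ 2⌉₊ + 1, ?_⟩
  intro N hN hN0 hdvd a ha haN z hz k hk1 hk2
  obtain ⟨n, hn⟩ := hdvd
  have hnK : N / K = n := by rw [hn, Nat.mul_div_cancel_left _ hK]
  have hn0 : 0 < n := by
    rcases Nat.eq_zero_or_pos n with h | h
    · rw [h, mul_zero] at hn; omega
    · exact h
  rw [hnK] at hk1 ⊢
  obtain ⟨j, rfl⟩ := Nat.exists_eq_add_of_le hk1
  have hKn : (K : ℝ≥0) ≠ 0 := by exact_mod_cast hK.ne'
  have hnn : (n : ℝ≥0) ≠ 0 := by exact_mod_cast hn0.ne'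
  have e1 : (K : ℝ≥0) * (((n + j : ℕ) : ℝ≥0) / N) = tk n (n + j) + 1 := by
    rw [tk, Nat.add_sub_cancel_left, hn]
    push_cast
    field_simp
    ring
  have e2 : (K : ℝ≥0) * ((j : ℝ≥0) / N) = tk n (n + j) := by
    rw [tk, Nat.add_sub_cancel_left, hn]
    push_cast
    field_simp
  have c1 := hz (n + j) hk2
  have c2 := hz j (by omega)
  rw [e1] at c1
  rw [e2] at c2
  have hNr : (0 : ℝ) < (N : ℝ) := by exact_mod_cast hN0
  have hsN : 0 < √(N : ℝ) := Real.sqrt_pos.2 hNr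
  have hrn : r * √(n : ℝ) = √(N : ℝ) := by
    rw [hr, ← Real.sqrt_mul (by positivity), hn]
    push_cast
    rfl
  have hm := lamn_close l n
  -- size of a
  have ha1 : a * √(N : ℝ) ≤ 2 := by
    have := (abs_le.1 haN).2
    linarith
  have hsN2 : 8 * r / η ≤ √(N : ℝ) := by
    have h1 : (8 * r / η) ^ 2 ≤ (N : ℝ) := by
      have h2 : (8 * r / η) ^ 2 ≤ (⌈(8 * r / η) ^ 2⌉₊ : ℝ) := Nat.le_ceil _
      have h3 : ((⌈(8 * r / η) ^ 2⌉₊ + 1 : ℕ) : ℝ) ≤ (N : ℝ) := by exact_mod_cast hN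
      push_cast at h3
      linarith
    exact Real.le_sqrt_of_sq_le h1
  have hra : r * a ≤ η / 4 := by
    have h1 : r * a * √(N : ℝ) ≤ r * 2 := by
      rw [mul_assoc]
      exact mul_le_mul_of_nonneg_left ha1 hr0.le
    have h2 : r * 2 ≤ η / 4 * √(N : ℝ) := by
      have := mul_le_mul_of_nonneg_left hsN2 (by positivity : (0 : ℝ) ≤ η / 4)
      have e : η / 4 * (8 * r / η) = r * 2 := by field_simp; ring
      rw [e] at this
      exact this
    exact le_of_mul_le_mul_right (h1.trans h2) hsN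
  have f1 : |r * (a * z (n + j)) - g (tk n (n + j) + 1)| ≤ r * δ := by
    have : r * (a * z (n + j)) - g (tk n (n + j) + 1) =
        r * (a * z (n + j) - r⁻¹ * g (tk n (n + j) + 1)) := by
      field_simp
    rw [this, abs_mul, abs_of_pos hr0]
    exact mul_le_mul_of_nonneg_left c1 hr0.le
  have f2 : |r * (a * z j) - g (tk n (n + j))| ≤ r * δ := by
    have : r * (a * z j) - g (tk n (n + j)) =
        r * (a * z j - r⁻¹ * g (tk n (n + j))) := by
      field_simp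
    rw [this, abs_mul, abs_of_pos hr0]
    exact mul_le_mul_of_nonneg_left c2 hr0.le
  have f3 : |r * a * (lamn l n : ℝ) - l| ≤ η / 4 + |l| * δ := by
    have e : r * a * (lamn l n : ℝ) - l =
        r * a * ((lamn l n : ℝ) - l * √(n : ℝ)) + l * (a * √(N : ℝ) - 1) := by
      rw [← hrn]; ring
    rw [e]
    refine (abs_add_le _ _).trans (add_le_add ?_ ?_)
    · rw [abs_mul, abs_of_pos (mul_pos hr0 ha)]
      calc r * a * |(lamn l n : ℝ) - l * √(n : ℝ)| ≤ r * a * 1 :=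
            mul_le_mul_of_nonneg_left hm (by positivity)
        _ ≤ η / 4 := by linarith
    · rw [abs_mul]
      exact mul_le_mul_of_nonneg_left haN (abs_nonneg _)
  have e3 : r * a * (((z (n + j) - z (n + j - n) : ℤ) : ℝ) - (lamn l n : ℝ)) -
      (Dg g (tk n (n + j)) - l) = (r * (a * z (n + j)) - g (tk n (n + j) + 1)) -
        (r * (a * z j) - g (tk n (n + j))) - (r * a * (lamn l n : ℝ) - l) := by
    rw [Nat.add_sub_cancel_left, Dg]
    push_cast
    ring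
  rw [e3]
  have g1 := abs_le.1 f1
  have g2 := abs_le.1 f2
  have g3 := abs_le.1 f3
  have g4 : 2 * (r * δ) + |l| * δ ≤ η / 4 := by nlinarith
  rw [abs_lt]
  constructor <;> linarith [g1.1, g1.2, g2.1, g2.2, g3.1, g3.2]

theorem tk_val {n : ℕ} (hn : 0 < n) (j : ℕ) : ((tk n (n + j) : ℝ≥0) : ℝ) * n = j := by
  rw [tk, Nat.add_sub_cancel_left]
  push_cast
  field_simp

/-- the real number behind `yK` -/
noncomputable def yy (K : ℕ) (l : ℝ) (g : ℝ≥0 → ℝ) : ℝ :=
  (min (1 + hitB l g) (K : ℝ≥0∞)).toReal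

theorem yy_le (K : ℕ) (l : ℝ) (g : ℝ≥0 → ℝ) : yy K l g ≤ K := by
  unfold yy
  have : min (1 + hitB l g) (K : ℝ≥0∞) ≤ K := min_le_right _ _
  have h := ENNReal.toReal_mono (by simp) this
  simpa using h

theorem min_ne_top (K : ℕ) (x : ℝ≥0∞) : min x (K : ℝ≥0∞) ≠ ⊤ :=
  ne_top_of_le_ne_top (by simp) (min_le_right _ _)

theorem lower (l : ℝ) (K : ℕ) (hK : 0 < K) (g : ℝ≥0 → ℝ) (hg : Reg l g) (ε : ℝ) (hε : 0 < ε) :
    ∃ η > (0 : ℝ), ∀ N : ℕ, 0 < N → K ∣ N → ∀ a > (0 : ℝ), ∀ z : ℕ → ℤ, Hyp K l g N a z η →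
      yK K l g - ε ≤ Phi K l N z := by
  obtain ⟨hgc, hg0, hg1, -⟩ := hg
  have hDc : Continuous (Dg g) := by
    unfold Dg
    exact (hgc.comp (continuous_id.add continuous_const)).sub hgc
  set c : ℝ := yy K l g - 1 - ε with hc
  have hη : ∃ η > (0 : ℝ), ∀ t : ℝ≥0, (t : ℝ) ≤ c → η ≤ |Dg g t - l| := by
    by_cases hc0 : 0 ≤ c
    · have hne : (Icc (0 : ℝ≥0) c.toNNReal).Nonempty := ⟨0, by simp⟩
      obtain ⟨t0, ht0, hmin⟩ := (isCompact_Icc (a := (0 : ℝ≥0)) (b := c.toNNReal)).exists_isMinOn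
        hne ((hDc.sub continuous_const).abs.continuousOn (f := fun t => |Dg g t - l|))
      refine ⟨|Dg g t0 - l|, ?_, fun t ht => ?_⟩
      · rw [gt_iff_lt, abs_pos, sub_ne_zero]
        intro hD
        rcases eq_or_lt_of_le (by positivity : (0 : ℝ≥0) ≤ t0) with h | h
        · rw [← h] at hD
          apply hg1
          simpa [Dg] using hD
        · have h1 : hitB l g ≤ (t0 : ℝ≥0∞) := iInf₂_le t0 ⟨h, hD⟩
          have h2 : (t0 : ℝ) ≤ c := by
            have := ht0.2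
            rw [← NNReal.coe_le_coe, Real.coe_toNNReal c hc0] at this
            exact this
          have h3 : min (1 + hitB l g) (K : ℝ≥0∞) ≤ ((1 + t0 : ℝ≥0) : ℝ≥0∞) := by
            refine (min_le_left _ _).trans ?_
            rw [ENNReal.coe_add, ENNReal.coe_one]
            gcongr
          have h4 : yy K l g ≤ 1 + t0 := by
            have := ENNReal.toReal_mono ENNReal.coe_ne_top h3
            rw [ENNReal.coe_toReal] at this
            simpa [yy] using this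
          linarith
      · exact hmin ⟨by positivity, by
          rw [← NNReal.coe_le_coe, Real.coe_toNNReal c hc0]; exact ht⟩
    · refine ⟨1, one_pos, fun t ht => ?_⟩
      exact absurd (t.2.trans ht) hc0
  obtain ⟨η, hη0, hη⟩ := hη
  refine ⟨η, hη0, ?_⟩
  intro N hN hdvd a ha z hz
  obtain ⟨n, hn⟩ := hdvd
  have hnK : N / K = n := by rw [hn, Nat.mul_div_cancel_left _ hK]
  have hn0 : 0 < n := by
    rcases Nat.eq_zero_or_pos n with h | h
    · rw [h, mul_zero] at hn; omega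
    · exact h
  have hnr : (0 : ℝ) < n := by exact_mod_cast hn0
  have hKr : (1 : ℝ) ≤ K := by exact_mod_cast hK
  have hNr : (N : ℝ) = K * n := by rw [hn]; push_cast; ring
  have hyK := yy_le K l g
  have hbound : ENNReal.ofReal (n * (1 + c)) ≤ min (hit n (lamn l n) z) (N : ℝ≥0∞) := by
    have hNb : ENNReal.ofReal (n * (1 + c)) ≤ (N : ℝ≥0∞) := by
      rw [← ENNReal.ofReal_natCast]
      refine ENNReal.ofReal_le_ofReal ?_
      rw [hNr, mul_comm (K : ℝ)]
      refine mul_le_mul_of_nonneg_left ?_ hnr.le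
      linarith
    refine le_min ?_ hNb
    refine le_iInf₂ fun k hk => ?_
    by_cases hkN : k ≤ N
    · have h1 := hz k (by rw [hnK]; exact hk.1) hkN
      rw [hnK, hk.2, sub_self, mul_zero, zero_sub, abs_neg] at h1
      obtain ⟨j, rfl⟩ := Nat.exists_eq_add_of_le hk.1
      by_contra hcon
      rw [not_le, ← ENNReal.ofReal_natCast,
        ENNReal.ofReal_lt_ofReal_iff_of_nonneg (by positivity)] at hcon
      have h2 := tk_val hn0 j
      have h3 : ((tk n (n + j) : ℝ≥0) : ℝ) ≤ c := by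
        push_cast at hcon
        by_contra h4
        rw [not_le] at h4
        have := mul_lt_mul_of_pos_right h4 hnr
        rw [h2] at this
        nlinarith
      exact absurd (hη _ h3) (not_le.2 h1)
    · refine hNb.trans ?_
      exact_mod_cast (not_le.1 hkN).le
  have h5 : (n : ℝ) * (1 + c) ≤ (min (hit n (lamn l n) z) (N : ℝ≥0∞)).toReal :=
    (ENNReal.ofReal_le_iff_le_toReal (min_ne_top N _)).1 hbound
  have hyKe : yK K l g = yy K l g / K := rfl
  rw [hyKe, Phi, hnK, le_div_iff₀ (by rw [hNr]; positivity)]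
  refine le_trans ?_ h5
  have h6 : (yy K l g / K - ε) * (N : ℝ) = n * (yy K l g - K * ε) := by
    rw [hNr]; field_simp
  rw [h6]
  refine mul_le_mul_of_nonneg_left ?_ hnr.le
  rw [hc]
  nlinarith

theorem upper (l : ℝ) (K : ℕ) (hK : 0 < K) (g : ℝ≥0 → ℝ) (hg : Reg l g) (ε : ℝ) (hε : 0 < ε) :
    ∃ η > (0 : ℝ), ∃ N1 : ℕ, ∀ N ≥ N1, 0 < N → K ∣ N → ∀ a > (0 : ℝ), ∀ z : ℕ → ℤ, PM N z →
      Hyp K l g N a z η → Phi K l N z ≤ yK K l g + ε := by
  obtain ⟨hgc, hg0, hg1, hreg⟩ := hg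
  have hDc : Continuous (Dg g) := by
    unfold Dg
    exact (hgc.comp (continuous_id.add continuous_const)).sub hgc
  have hyKe : yK K l g = yy K l g / K := rfl
  have hKr : (1 : ℝ) ≤ K := by exact_mod_cast hK
  have hK0 : (0 : ℝ) < K := by linarith
  by_cases hcase : (K : ℝ) - ε ≤ yy K l g
  · refine ⟨1, one_pos, 0, ?_⟩
    intro N _ hN hdvd a ha z _ _
    have hNr : (0 : ℝ) < N := by exact_mod_cast hN
    have h1 : Phi K l N z ≤ 1 := by
      unfold Phi
      rw [div_le_one hNr]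
      have := ENNReal.toReal_mono (by simp)
        (min_le_right (hit (N / K) (lamn l (N / K)) z) (N : ℝ≥0∞))
      simpa using this
    refine h1.trans ?_
    rw [hyKe]
    have h2 : ((K : ℝ) - ε) / K ≤ yy K l g / K := by gcongr
    have h3 : ((K : ℝ) - ε) / K = 1 - ε / K := by field_simp
    have h4 : ε / K ≤ ε := div_le_self hε.le hKr
    linarith
  · rw [not_le] at hcase
    -- the infimum is finite
    have hlt : yy K l g < K := by linarith
    have hFlt : 1 + hitB l g < (K : ℝ≥0∞) := by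
      by_contra hcon
      rw [not_lt] at hcon
      have : yy K l g = K := by
        unfold yy
        rw [min_eq_right hcon]
        simp
      linarith
    have hyF : (1 + hitB l g) = ENNReal.ofReal (yy K l g) := by
      unfold yy
      rw [min_eq_left hFlt.le, ENNReal.ofReal_toReal (ne_top_of_lt hFlt)]
    have hy0 : 0 ≤ yy K l g := ENNReal.toReal_nonneg
    have hFt : hitB l g < ENNReal.ofReal (yy K l g - 1 + ε / 4) := by
      by_contra hcon
      rw [not_lt] at hcon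
      have h1 : 1 + ENNReal.ofReal (yy K l g - 1 + ε / 4) ≤ 1 + hitB l g := by gcongr
      rw [hyF, ← ENNReal.ofReal_one] at h1
      have h2 : ENNReal.ofReal (1 + (yy K l g - 1 + ε / 4)) ≤ ENNReal.ofReal (yy K l g) :=
        ENNReal.ofReal_add_le.trans h1
      rw [ENNReal.ofReal_le_ofReal_iff hy0] at h2
      linarith
    obtain ⟨t, ht⟩ := iInf_lt_iff.1 hFt
    obtain ⟨⟨ht0, htl⟩, ht2⟩ := iInf_lt_iff.1 ht
    have ht3 : (t : ℝ) < yy K l g - 1 + ε / 4 := by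
      have h1 := ENNReal.toReal_strict_mono (ENNReal.ofReal_ne_top) ht2
      rw [ENNReal.coe_toReal] at h1
      rcases le_or_gt (yy K l g - 1 + ε / 4) 0 with h | h
      · rw [ENNReal.ofReal_of_nonpos h] at h1
        simp at h1
      · rwa [ENNReal.toReal_ofReal h.le] at h1
    obtain ⟨⟨s1, hs1, hD1⟩, ⟨s2, hs2, hD2⟩⟩ := hreg t ht0 htl (ε / 4) (by linarith)
    have hD1 : l < Dg g s1 := hD1
    have hD2 : Dg g s2 < l := hD2
    set η : ℝ := min (Dg g s1 - l) (l - Dg g s2) / 2 with hη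
    have hη0 : 0 < η := half_pos (lt_min (by linarith) (by linarith))
    have hη1 : l + η < Dg g s1 := by
      have : η ≤ (Dg g s1 - l) / 2 := by
        rw [hη]; gcongr; exact min_le_left _ _
      linarith
    have hη2 : Dg g s2 < l - η := by
      have : η ≤ (l - Dg g s2) / 2 := by
        rw [hη]; gcongr; exact min_le_right _ _
      linarith
    have o1 : ∀ᶠ s in 𝓝 s1, l + η < Dg g s := hDc.continuousAt.eventually (lt_mem_nhds hη1)
    have o2 : ∀ᶠ s in 𝓝 s2, Dg g s < l - η := hDc.continuousAt.eventually (gt_mem_nhds hη2)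
    obtain ⟨ρ1, hρ1, hb1⟩ := Metric.eventually_nhds_iff.1 o1
    obtain ⟨ρ2, hρ2, hb2⟩ := Metric.eventually_nhds_iff.1 o2
    set ρ := min ρ1 ρ2 with hρ
    have hρ0 : 0 < ρ := lt_min hρ1 hρ2
    refine ⟨η, hη0, K * (⌈1 / ρ⌉₊ + 1), ?_⟩
    intro N hN hN0 hdvd a ha z hPM hz
    obtain ⟨n, hn⟩ := hdvd
    have hnK : N / K = n := by rw [hn, Nat.mul_div_cancel_left _ hK]
    have hn0 : 0 < n := by
      rcases Nat.eq_zero_or_pos n with h | h
      · rw [h, mul_zero] at hn; omega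
      · exact h
    have hnr : (0 : ℝ) < n := by exact_mod_cast hn0
    have hNr : (N : ℝ) = K * n := by rw [hn]; push_cast; ring
    have hnlarge : ⌈1 / ρ⌉₊ + 1 ≤ n := by
      rw [hn] at hN
      exact Nat.le_of_mul_le_mul_left hN hK
    have hnρ : 1 / (n : ℝ) < ρ := by
      have h1 : 1 / ρ ≤ (⌈1 / ρ⌉₊ : ℝ) := Nat.le_ceil _
      have h2 : ((⌈1 / ρ⌉₊ + 1 : ℕ) : ℝ) ≤ n := by exact_mod_cast hnlarge
      push_cast at h2
      rw [div_lt_iff₀ hnr]
      have h3 : 1 / ρ < n := by linarith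
      rw [div_lt_iff₀ hρ0] at h3
      linarith
    -- sample points
    have hsample : ∀ s : ℝ≥0, (s : ℝ) ≤ K - 1 →
        dist (tk n (n + ⌊(n : ℝ) * s⌋₊)) s < ρ ∧ n + ⌊(n : ℝ) * s⌋₊ ≤ N ∧
          ((n + ⌊(n : ℝ) * s⌋₊ : ℕ) : ℝ) ≤ n * (1 + s) := by
      intro s hs
      have hns : 0 ≤ (n : ℝ) * s := by positivity
      have f1 : (⌊(n : ℝ) * s⌋₊ : ℝ) ≤ n * s := Nat.floor_le hns
      have f2 : (n : ℝ) * s < ⌊(n : ℝ) * s⌋₊ + 1 := Nat.lt_floor_add_one _
      have f3 := tk_val hn0 ⌊(n : ℝ) * s⌋₊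
      have f4 : ((n + ⌊(n : ℝ) * s⌋₊ : ℕ) : ℝ) ≤ n * (1 + s) := by
        push_cast
        nlinarith
      refine ⟨?_, ?_, f4⟩
      · rw [NNReal.dist_eq]
        have h1 : |((tk n (n + ⌊(n : ℝ) * s⌋₊) : ℝ≥0) : ℝ) - s| ≤ 1 / n := by
          rw [le_div_iff₀ hnr, ← abs_of_pos hnr, ← abs_mul, abs_of_pos hnr, sub_mul, f3, abs_le]
          constructor <;> nlinarith
        exact lt_of_le_of_lt h1 hnρ
      · have : ((n + ⌊(n : ℝ) * s⌋₊ : ℕ) : ℝ) ≤ (N : ℝ) := by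
          refine f4.trans ?_
          rw [hNr]
          nlinarith
        exact_mod_cast this
    have hs1' : (s1 : ℝ) < yy K l g - 1 + ε / 2 := by
      have := (abs_lt.1 hs1).2
      linarith
    have hs2' : (s2 : ℝ) < yy K l g - 1 + ε / 2 := by
      have := (abs_lt.1 hs2).2
      linarith
    obtain ⟨a1, a2, a3⟩ := hsample s1 (by linarith)
    obtain ⟨b1, b2, b3⟩ := hsample s2 (by linarith)
    set k1 := n + ⌊(n : ℝ) * s1⌋₊ with hk1
    set k2 := n + ⌊(n : ℝ) * s2⌋₊ with hk2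
    have hn1 : n ≤ k1 := Nat.le_add_right _ _
    have hn2 : n ≤ k2 := Nat.le_add_right _ _
    have d1 : l + η < Dg g (tk n k1) := hb1 (lt_of_lt_of_le a1 (min_le_left _ _))
    have d2 : Dg g (tk n k2) < l - η := hb2 (lt_of_lt_of_le b1 (min_le_right _ _))
    have hKs : 0 < √(K : ℝ) := Real.sqrt_pos.2 hK0
    have w1 : lamn l n ≤ z k1 - z (k1 - n) := by
      have h1 := hz k1 (by rw [hnK]; exact hn1) a2
      rw [hnK] at h1
      have h2 := (abs_lt.1 h1).1
      have h3 : 0 < √(K : ℝ) * a * (((z k1 - z (k1 - n) : ℤ) : ℝ) - (lamn l n : ℝ)) := by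
        linarith
      have h4 : 0 < (((z k1 - z (k1 - n) : ℤ) : ℝ) - (lamn l n : ℝ)) :=
        (mul_pos_iff_of_pos_left (mul_pos hKs ha)).1 h3
      have h5 : (lamn l n : ℝ) < ((z k1 - z (k1 - n) : ℤ) : ℝ) := by linarith
      exact (by exact_mod_cast h5 : lamn l n < z k1 - z (k1 - n)).le
    have w2 : z k2 - z (k2 - n) ≤ lamn l n := by
      have h1 := hz k2 (by rw [hnK]; exact hn2) b2
      rw [hnK] at h1
      have h2 := (abs_lt.1 h1).2
      have h3 : 0 < √(K : ℝ) * a * ((lamn l n : ℝ) - ((z k2 - z (k2 - n) : ℤ) : ℝ)) := by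
        have : √(K : ℝ) * a * ((lamn l n : ℝ) - ((z k2 - z (k2 - n) : ℤ) : ℝ)) =
          -(√(K : ℝ) * a * (((z k2 - z (k2 - n) : ℤ) : ℝ) - (lamn l n : ℝ))) := by ring
        rw [this]
        linarith
      have h4 : 0 < ((lamn l n : ℝ) - ((z k2 - z (k2 - n) : ℤ) : ℝ)) :=
        (mul_pos_iff_of_pos_left (mul_pos hKs ha)).1 h3
      have h5 : ((z k2 - z (k2 - n) : ℤ) : ℝ) < (lamn l n : ℝ) := by linarith
      exact (by exact_mod_cast h5 : z k2 - z (k2 - n) < lamn l n).le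
    have hex : ∃ k, n ≤ k ∧ (k : ℝ) ≤ n * (yy K l g + ε / 2) ∧
        z k - z (k - n) = lamn l n := by
      have q1 : (k1 : ℝ) ≤ n * (yy K l g + ε / 2) :=
        a3.trans (mul_le_mul_of_nonneg_left (by linarith) hnr.le)
      have q2 : (k2 : ℝ) ≤ n * (yy K l g + ε / 2) :=
        b3.trans (mul_le_mul_of_nonneg_left (by linarith) hnr.le)
      rcases le_total k1 k2 with h | h
      · obtain ⟨k, x1, x2, x3⟩ := window_ivt hPM (lamn_parity l n) hn1 h b2 (Or.inr ⟨w1, w2⟩)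
        exact ⟨k, hn1.trans x1, le_trans (by exact_mod_cast x2) q2, x3⟩
      · obtain ⟨k, x1, x2, x3⟩ := window_ivt hPM (lamn_parity l n) hn2 h a2 (Or.inl ⟨w2, w1⟩)
        exact ⟨k, hn2.trans x1, le_trans (by exact_mod_cast x2) q1, x3⟩
    obtain ⟨k, x1, x2, x3⟩ := hex
    have hhit : min (hit n (lamn l n) z) (N : ℝ≥0∞) ≤ (k : ℝ≥0∞) :=
      (min_le_left _ _).trans (iInf₂_le k ⟨x1, x3⟩)
    have hreal : (min (hit n (lamn l n) z) (N : ℝ≥0∞)).toReal ≤ k := by
      have := ENNReal.toReal_mono (by simp) hhit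
      simpa using this
    rw [hyKe, Phi, hnK, div_le_iff₀ (by rw [hNr]; positivity)]
    refine hreal.trans (x2.trans ?_)
    rw [hNr]
    have h6 : (yy K l g / K + ε) * (K * (n : ℝ)) = n * (yy K l g + K * ε) := by field_simp
    rw [h6]
    refine mul_le_mul_of_nonneg_left ?_ hnr.le
    nlinarith

end StabAux

open StabAux

theorem stab (l : ℝ) (K : ℕ) (hK : 0 < K) (g : ℝ≥0 → ℝ) (hg : Reg l g) :
    ∀ ε > 0, ∃ δ > 0, ∃ N0 : ℕ, ∀ N ≥ N0, 0 < N → K ∣ N → ∀ a > 0, |a * √(N : ℝ) - 1| ≤ δ →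
      ∀ z : ℕ → ℤ, PM N z →
      (∀ k ≤ N, |a * z k - (√(K : ℝ))⁻¹ * g ((K : ℝ≥0) * ((k : ℝ≥0) / N))| ≤ δ) →
      |Phi K l N z - yK K l g| ≤ ε := by
  intro ε hε
  obtain ⟨η1, hη1, h1⟩ := lower l K hK g hg ε hε
  obtain ⟨η2, hη2, N1, h2⟩ := upper l K hK g hg ε hε
  obtain ⟨δ, hδ, N0, h3⟩ := key l K hK g (min η1 η2) (lt_min hη1 hη2)
  refine ⟨δ, hδ, max N0 N1, ?_⟩
  intro N hN hN0 hdvd a ha haN z hPM hz
  have h4 := h3 N (le_of_max_le_left hN) hN0 hdvd a ha haN z hz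
  have h5 := h1 N hN0 hdvd a ha z fun k x y => (h4 k x y).trans_le (min_le_left _ _)
  have h6 := h2 N (le_of_max_le_right hN) hN0 hdvd a ha z hPM
    fun k x y => (h4 k x y).trans_le (min_le_right _ _)
  rw [abs_le]
  constructor <;> linarith

end Pool.Agent.R986.BP
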