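import Pool.Agent.R986.BP.Defs

/-! # Uniform geometric tails of the waiting time -/

open MeasureTheory ProbabilityTheory Filter Topology Set
open scoped ENNReal NNReal BoundedContinuousFunction

namespace Pool.Agent.R986.BP

open Pool.Agent.R974.Span

namespace Tail394

/-- a positive lower bound from the central limit theorem -/
lemma low {Ω : Type*} [MeasurableSpace Ω] {P : Measure Ω} {ξ : ℕ → Ω → ℤ} (h : Steps ξ P)
    (g : ℝ → ℝ) (hg : Continuous g) (hg0 : ∀ x, 0 ≤ g x) (hg1 : ∀ x, g x ≤ 1)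
    (hpos : ∃ x, 0 < g x) : ∃ c : ℝ, 0 < c ∧ ∀ᶠ n : ℕ in atTop,
      c ≤ ∫ ω, g ((√(n : ℝ))⁻¹ * S ξ n ω) ∂P := by
  set G : (Fin 1 → ℝ) →ᵇ ℝ := BoundedContinuousFunction.ofNormedAddCommGroup (fun x => g (x 0))
    (by fun_prop) 1 (fun x => by rw [Real.norm_of_nonneg (hg0 _)]; exact hg1 _) with hG
  have hclt := h.clt 1 G
  have hop : (gaussianReal 0 1).IsOpenPosMeasure :=
    (gaussianReal_absolutelyContinuous' 0 (by norm_num : (1 : ℝ≥0) ≠ 0)).isOpenPosMeasure
  have hI : 0 < ∫ x, G x ∂(Measure.pi fun _ : Fin 1 => gaussianReal 0 1) := by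
    have hint : Integrable (fun x => G x) (Measure.pi fun _ : Fin 1 => gaussianReal 0 1) :=
      G.integrable _
    have hGn : (0 : (Fin 1 → ℝ) → ℝ) ≤ fun x => G x := fun x => hg0 (x 0)
    rw [integral_pos_iff_support_of_nonneg hGn hint]
    apply IsOpen.measure_pos
    · exact G.continuous.isOpen_support
    · obtain ⟨x, hx⟩ := hpos
      exact ⟨fun _ => x, hx.ne'⟩
  refine ⟨(∫ x, G x ∂(Measure.pi fun _ : Fin 1 => gaussianReal 0 1)) / 2, by positivity, ?_⟩
  have h1 := (tendsto_order.1 hclt).1 _ (half_lt_self hI)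
  filter_upwards [h1] with n hn
  refine hn.le.trans (le_of_eq ?_)
  refine integral_congr_ae (Eventually.of_forall fun ω => ?_)
  show g ((√(n : ℝ))⁻¹ * blk ξ n ((0 : Fin 1) : ℕ) ω) = g ((√(n : ℝ))⁻¹ * S ξ n ω)
  congr 2
  unfold blk S
  simp

end Tail394

open Tail394

theorem tail {Ω : Type*} [MeasurableSpace Ω] {P : Measure Ω} {ξ : ℕ → Ω → ℤ} (h : Steps ξ P)
    (l : ℝ) : ∃ c : ℝ, 0 ≤ c ∧ c < 1 ∧ ∃ n0 : ℕ, ∀ n ≥ n0, ∀ j : ℕ,
      P.real {ω | ((2 * j * n : ℕ) : ℝ≥0∞) < hit n (lamn l n) (fun k => walk ξ k ω)} ≤ c ^ j := by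
  have := h.prob
  obtain ⟨c1, hc1, hev1⟩ := low h (fun x => min 1 (max 0 (l - 1 - x))) (by fun_prop)
    (fun x => le_min zero_le_one (le_max_left _ _)) (fun x => min_le_left _ _)
    ⟨l - 2, by norm_num⟩
  obtain ⟨c2, hc2, hev2⟩ := low h (fun x => min 1 (max 0 (x - (l + 1)))) (by fun_prop)
    (fun x => le_min zero_le_one (le_max_left _ _)) (fun x => min_le_left _ _)
    ⟨l + 2, by norm_num⟩
  obtain ⟨n0, hn0⟩ := (((hev1.and hev2).and (eventually_ge_atTop 1))).exists_forall_of_atTop
  -- probabilities of the two half lines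
  have hlow : ∀ n ≥ n0, c1 ≤ P.real {ω | S ξ n ω < (lamn l n : ℝ)} ∧
      c2 ≤ P.real {ω | (lamn l n : ℝ) < S ξ n ω} := by
    intro n hn
    obtain ⟨⟨h1, h2⟩, hn1⟩ := hn0 n hn
    have hs1 : 1 ≤ √(n : ℝ) := by
      rw [Real.one_le_sqrt]; exact_mod_cast hn1
    have hs0 : 0 < √(n : ℝ) := by linarith
    have hcl := abs_le.1 (lamn_close l n)
    constructor
    · refine h1.trans ?_
      rw [← integral_indicator_one (measurableSet_lt (h.measS n) measurable_const)]
      refine integral_mono_of_nonneg (Eventually.of_forall fun ω =>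
        le_min zero_le_one (le_max_left _ _)) ((integrable_const 1).indicator
          (measurableSet_lt (h.measS n) measurable_const)) (Eventually.of_forall fun ω => ?_)
      by_cases hω : S ξ n ω < (lamn l n : ℝ)
      · rw [indicator_of_mem (show ω ∈ {ω | S ξ n ω < (lamn l n : ℝ)} from hω)]
        exact min_le_left _ _
      · rw [indicator_of_notMem (show ω ∉ {ω | S ξ n ω < (lamn l n : ℝ)} from hω)]
        have h3 : l - 1 ≤ (√(n : ℝ))⁻¹ * S ξ n ω := by
          rw [inv_mul_eq_div, le_div_iff₀ hs0]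
          push Not at hω
          nlinarith [hcl.1]
        show min 1 (max 0 (l - 1 - (√(n : ℝ))⁻¹ * S ξ n ω)) ≤ 0
        rw [max_eq_left (by linarith)]
        exact min_le_right _ _
    · refine h2.trans ?_
      rw [← integral_indicator_one (measurableSet_lt measurable_const (h.measS n))]
      refine integral_mono_of_nonneg (Eventually.of_forall fun ω =>
        le_min zero_le_one (le_max_left _ _)) ((integrable_const 1).indicator
          (measurableSet_lt measurable_const (h.measS n))) (Eventually.of_forall fun ω => ?_)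
      by_cases hω : (lamn l n : ℝ) < S ξ n ω
      · rw [indicator_of_mem (show ω ∈ {ω | (lamn l n : ℝ) < S ξ n ω} from hω)]
        exact min_le_left _ _
      · rw [indicator_of_notMem (show ω ∉ {ω | (lamn l n : ℝ) < S ξ n ω} from hω)]
        have h3 : (√(n : ℝ))⁻¹ * S ξ n ω ≤ l + 1 := by
          rw [inv_mul_eq_div, div_le_iff₀ hs0]
          push Not at hω
          nlinarith [hcl.2]
        show min 1 (max 0 ((√(n : ℝ))⁻¹ * S ξ n ω - (l + 1))) ≤ 0
        rw [max_eq_left (by linarith)]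
        exact min_le_right _ _
  have hc1' : c1 ≤ 1 := (hlow n0 le_rfl).1.trans measureReal_le_one
  have hc2' : c2 ≤ 1 := (hlow n0 le_rfl).2.trans measureReal_le_one
  refine ⟨1 - c1 * c2, by nlinarith, by nlinarith [mul_pos hc1 hc2], n0, fun n hn j => ?_⟩
  obtain ⟨hp1, hp2⟩ := hlow n hn
  set m := lamn l n with hm
  -- the pairs of blocks
  set f : ℕ → Ω → (Fin 2 → ℝ) := fun i ω t => blk ξ n (2 * i + t) ω with hf
  have hfind : iIndepFun f P := by
    refine iIndepFun_curry (Y := fun (i : ℕ) (t : Fin 2) ω => blk ξ n (2 * i + t) ω)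
      (fun i t => h.meas_blk n _) ?_
    refine (h.indep_blk (b := n)).precomp (g := fun p : (_ : ℕ) × Fin 2 => 2 * p.1 + (p.2 : ℕ)) ?_
    rintro ⟨i, k⟩ ⟨j, l⟩ h2
    have hk := k.2
    have hl := l.2
    simp only at h2
    have hij : i = j := by omega
    subst hij
    have : k = l := Fin.ext (by omega)
    subst this
    rfl
  set E : Set (Fin 2 → ℝ) := {x | x 0 < (m : ℝ) ∧ (m : ℝ) < x 1} with hE
  have hEm : MeasurableSet E := by
    have e1 : MeasurableSet {x : Fin 2 → ℝ | x 0 < (m : ℝ)} :=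
      measurableSet_lt (measurable_pi_apply 0) measurable_const
    have e2 : MeasurableSet {x : Fin 2 → ℝ | (m : ℝ) < x 1} :=
      measurableSet_lt measurable_const (measurable_pi_apply 1)
    exact e1.inter e2
  have hfm : ∀ i, Measurable (f i) := fun i => measurable_pi_lambda _ fun t => h.meas_blk n _
  have hPE : ∀ i, c1 * c2 ≤ P.real (f i ⁻¹' E) := by
    intro i
    have hne : (2 * i) ≠ 2 * i + 1 := by omega
    have hind := (h.indep_blk (b := n)).indepFun hne
    have h1 := hind.measure_inter_preimage_eq_mul (Iio (m : ℝ)) (Ioi (m : ℝ)) measurableSet_Iio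
      measurableSet_Ioi
    have h2 : f i ⁻¹' E = blk ξ n (2 * i) ⁻¹' Iio (m : ℝ) ∩ blk ξ n (2 * i + 1) ⁻¹' Ioi (m : ℝ) := by
      ext ω
      simp only [hf, hE, mem_preimage, Set.mem_ofPred_eq, mem_inter_iff, mem_Iio, mem_Ioi]
      simp
    have h3 : P (blk ξ n (2 * i) ⁻¹' Iio (m : ℝ)) = P {ω | S ξ n ω < (m : ℝ)} := by
      rw [← Measure.map_apply (h.meas_blk n _) measurableSet_Iio, h.law_blk,
        Measure.map_apply (h.measS n) measurableSet_Iio]
      rfl
    have h4 : P (blk ξ n (2 * i + 1) ⁻¹' Ioi (m : ℝ)) = P {ω | (m : ℝ) < S ξ n ω} := by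
      rw [← Measure.map_apply (h.meas_blk n _) measurableSet_Ioi, h.law_blk,
        Measure.map_apply (h.measS n) measurableSet_Ioi]
      rfl
    have h5 : P.real (f i ⁻¹' E) = P.real {ω | S ξ n ω < (m : ℝ)} *
        P.real {ω | (m : ℝ) < S ξ n ω} := by
      unfold Measure.real
      rw [h2, h1, h3, h4, ENNReal.toReal_mul]
    rw [h5]
    exact mul_le_mul hp1 hp2 hc2.le measureReal_nonneg
  -- the main inclusion
  have hincl : ∀ᵐ ω ∂P, ((2 * j * n : ℕ) : ℝ≥0∞) < hit n m (fun k => walk ξ k ω) →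
      ω ∈ ⋂ i ∈ Finset.range j, f i ⁻¹' Eᶜ := by
    filter_upwards [h.ae_step] with ω hω hlt
    rw [mem_iInter₂]
    intro i hi hE'
    rw [Finset.mem_range] at hi
    have hPM : PM ((2 * i + 2) * n) (fun k => walk ξ k ω) := by
      intro k _
      have : walk ξ (k + 1) ω - walk ξ k ω = ξ k ω := by
        unfold walk
        rw [Finset.sum_range_succ]; ring
      simp only [this]
      exact hω k
    have hb : ∀ q : ℕ, blk ξ n q ω = ((walk ξ ((q + 1) * n) ω - walk ξ (q * n) ω : ℤ) : ℝ) := by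
      intro q
      rw [blk_eq, S_eq, S_eq]
      push_cast
      ring
    have hE1 : walk ξ ((2 * i + 1) * n) ω - walk ξ (2 * i * n) ω < m := by
      have : blk ξ n (2 * i) ω < (m : ℝ) := by
        have := hE'.1
        simpa [hf] using this
      rw [hb] at this
      exact_mod_cast this
    have hE2 : m < walk ξ ((2 * i + 1 + 1) * n) ω - walk ξ ((2 * i + 1) * n) ω := by
      have : (m : ℝ) < blk ξ n (2 * i + 1) ω := by
        have := hE'.2
        simpa [hf] using this
      rw [hb] at this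
      exact_mod_cast this
    have s1 : (2 * i + 1) * n - n = 2 * i * n := by
      rw [add_mul, one_mul, Nat.add_sub_cancel]
    have s2 : (2 * i + 2) * n - n = (2 * i + 1) * n := by
      have : (2 * i + 2) * n = (2 * i + 1) * n + n := by ring
      rw [this, Nat.add_sub_cancel]
    obtain ⟨k, hk1, hk2, hk3⟩ := window_ivt (N := (2 * i + 2) * n) hPM (n := n) (m := m)
      (lamn_parity l n) (p := (2 * i + 1) * n) (q := (2 * i + 2) * n)
      (Nat.le_mul_of_pos_left n (by omega)) (Nat.mul_le_mul_right n (by omega)) le_rfl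
      (Or.inl ⟨by simp only [s1]; exact hE1.le, by simp only [s2]; exact hE2.le⟩)
    have hhit : hit n m (fun k => walk ξ k ω) ≤ (k : ℝ≥0∞) := by
      unfold hit
      refine iInf₂_le k ⟨?_, hk3⟩
      exact (Nat.le_mul_of_pos_left n (by omega)).trans hk1
    have hkj : k ≤ 2 * j * n := by
      refine hk2.trans (Nat.mul_le_mul_right n (by omega))
    have : (k : ℝ≥0∞) ≤ ((2 * j * n : ℕ) : ℝ≥0∞) := by exact_mod_cast hkj
    exact absurd (hlt.trans_le (hhit.trans this)) (lt_irrefl _)
  have hprod : P.real (⋂ i ∈ Finset.range j, f i ⁻¹' Eᶜ) ≤ (1 - c1 * c2) ^ j := by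
    have h1 := hfind.measure_inter_preimage_eq_mul (Finset.range j) (sets := fun _ => Eᶜ)
      (fun i _ => hEm.compl)
    unfold Measure.real
    rw [h1, ENNReal.toReal_prod]
    calc ∏ i ∈ Finset.range j, (P (f i ⁻¹' Eᶜ)).toReal ≤ ∏ _i ∈ Finset.range j, (1 - c1 * c2) := by
          refine Finset.prod_le_prod (fun i _ => ENNReal.toReal_nonneg) fun i _ => ?_
          have h2 : P.real (f i ⁻¹' Eᶜ) = 1 - P.real (f i ⁻¹' E) := by
            rw [preimage_compl, probReal_compl_eq_one_sub (hfm i hEm)]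
          have h3 : (P (f i ⁻¹' Eᶜ)).toReal = 1 - P.real (f i ⁻¹' E) := h2
          rw [h3]
          linarith [hPE i]
      _ = (1 - c1 * c2) ^ j := by rw [Finset.prod_const, Finset.card_range]
  refine le_trans ?_ hprod
  unfold Measure.real
  exact ENNReal.toReal_mono (measure_ne_top _ _) (measure_mono_ae hincl)

end Pool.Agent.R986.BP
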