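import Pool.Agent.R986.BP.Inv
import Pool.Agent.R986.BP.Ext
import Pool.Agent.R986.BP.Tail
import Pool.Agent.R986.BP.Meas
import Pool.Agent.R986.BP.Stab

/-!
# MP_ceed31_pr: the limit of the truncated means and the conclusion
-/

open MeasureTheory ProbabilityTheory Filter Topology Set
open scoped ENNReal NNReal

namespace Pool.Agent.R986.BP

open Pool.Agent.R974.Span

variable {Ω : Type*} [MeasurableSpace Ω] {P : Measure Ω}
variable {Ω' : Type*} [MeasurableSpace Ω'] {P' : Measure Ω'}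
variable {ξ : ℕ → Ω → ℤ} {B : ℝ≥0 → Ω' → ℝ}

/-- Brownian scaling -/
lemma gbm_scale (hB : GBM B P') {K : ℕ} (hK : 0 < K) :
    GBM (fun (t : ℝ≥0) ω => (√(K : ℝ))⁻¹ * B ((K : ℝ≥0) * t) ω) P' where
  pre := by
    have hc : (K : ℝ≥0) ≠ 0 := by exact_mod_cast hK.ne'
    have h1 := hB.pre.smul hc
    have h2 : (((K : ℝ≥0)) : ℝ) = (K : ℝ) := NNReal.coe_natCast K
    rw [h2] at h1
    exact h1
  meas t := (hB.meas _).const_mul _
  cont ω := by
    have := hB.cont ω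
    fun_prop
  zero ω := by
    simp [hB.zero ω]

lemma min_hit_le {N n : ℕ} {m : ℤ} {z z' : ℕ → ℤ} (h : ∀ k ≤ N, z k = z' k) :
    min (hit n m z) (N : ℝ≥0∞) ≤ min (hit n m z') (N : ℝ≥0∞) := by
  refine le_min ?_ (min_le_right _ _)
  unfold hit
  refine le_iInf fun k => le_iInf fun hk => ?_
  by_cases hkN : k ≤ N
  · refine (min_le_left _ _).trans ?_
    refine iInf₂_le_of_le k ?_ le_rfl
    refine ⟨hk.1, ?_⟩
    rw [h k hkN, h (k - n) (by omega)]
    exact hk.2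
  · refine (min_le_right _ _).trans ?_
    exact_mod_cast (not_le.1 hkN).le

lemma min_hit_local {N n : ℕ} {m : ℤ} {z z' : ℕ → ℤ} (h : ∀ k ≤ N, z k = z' k) :
    min (hit n m z) (N : ℝ≥0∞) = min (hit n m z') (N : ℝ≥0∞) :=
  le_antisymm (min_hit_le h) (min_hit_le fun k hk => (h k hk).symm)

lemma phi_local (K : ℕ) (l : ℝ) (N : ℕ) (z z' : ℕ → ℤ) (h : ∀ k ≤ N, z k = z' k) :
    Phi K l N z = Phi K l N z' := by
  unfold Phi
  rw [min_hit_local h]

lemma trunc_bd (x : ℝ≥0∞) (N : ℕ) : |(min x (N : ℝ≥0∞)).toReal / N| ≤ 1 := by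
  have h1 : (min x (N : ℝ≥0∞)).toReal ≤ N := by
    have := ENNReal.toReal_mono (ENNReal.natCast_ne_top N) (min_le_right x (N : ℝ≥0∞))
    simpa using this
  have h0 : 0 ≤ (min x (N : ℝ≥0∞)).toReal := ENNReal.toReal_nonneg
  rw [abs_of_nonneg (by positivity)]
  exact div_le_one_of_le₀ h1 (by positivity)

lemma phi_bd (K : ℕ) (l : ℝ) (N : ℕ) (z : ℕ → ℤ) : |Phi K l N z| ≤ 1 := trunc_bd _ _

lemma yK_bd (K : ℕ) (l : ℝ) (g : ℝ≥0 → ℝ) : |yK K l g| ≤ 1 := trunc_bd _ _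

/-- convergence of the truncated means (rescaled) -/
theorem trunc_limit (h : Steps ξ P) (hB : GBM B P') (l : ℝ) {K : ℕ} (hK : 0 < K) :
    Tendsto (fun n : ℕ => ∫ ω, Phi K l (K * n) (fun k => walk ξ k ω) ∂P) atTop
      (𝓝 (∫ ω, yK K l (fun t => B t ω) ∂P')) := by
  have hBK := gbm_scale hB hK
  have hst : ∀ᵐ ω ∂P', ∀ ε > 0, ∃ δ > 0, ∃ N0 : ℕ, ∀ N ≥ N0, 0 < N → K ∣ N → ∀ a > 0,
      |a * √(N : ℝ) - 1| ≤ δ → ∀ z : ℕ → ℤ, PM N z →
      (∀ k ≤ N, |a * z k - (√(K : ℝ))⁻¹ * B ((K : ℝ≥0) * ((k : ℝ≥0) / N)) ω| ≤ δ) →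
      |Phi K l N z - yK K l (fun t => B t ω)| ≤ ε := by
    filter_upwards [ae_reg hB l] with ω hω
    exact stab l K hK _ hω
  have hym : AEStronglyMeasurable (fun ω => yK K l (fun t => B t ω)) P' := by
    have h1 := aemeas_hitB hB l
    unfold yK
    exact (((((aemeasurable_const (b := (1 : ℝ≥0∞))).add h1).min aemeasurable_const).ennreal_toReal).div_const _).aestronglyMeasurable
  have hup : ∀ ε > 0, ∀ᶠ N in atTop, K ∣ N → ∫ ω, Phi K l N (fun k => walk ξ k ω) ∂P ≤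
      ∫ ω, yK K l (fun t => B t ω) ∂P' + ε := by
    intro ε hε
    refine inv_upper (C0 := 1) hK h hBK (phi_bd K l) (phi_local K l)
      (fun ω => yK_bd K l _) hym ?_ hε
    filter_upwards [hst] with ω hω ε' hε'
    obtain ⟨δ, hδ, N0, hN0⟩ := hω ε' hε'
    refine ⟨δ, hδ, N0, fun N hN hNpos hKN a ha haN z hz hcl => ?_⟩
    have := (abs_le.1 (hN0 N hN hNpos hKN a ha haN z hz hcl)).2
    linarith
  have hlo : ∀ ε > 0, ∀ᶠ N in atTop, K ∣ N → ∫ ω, -Phi K l N (fun k => walk ξ k ω) ∂P ≤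
      ∫ ω, -yK K l (fun t => B t ω) ∂P' + ε := by
    intro ε hε
    refine inv_upper (Φ := fun N z => -Phi K l N z) (y := fun ω => -yK K l (fun t => B t ω))
      (C0 := 1) hK h hBK
      (fun N z => by rw [abs_neg]; exact phi_bd K l N z)
      (fun N z z' hzz => by rw [phi_local K l N z z' hzz])
      (fun ω => by rw [abs_neg]; exact yK_bd K l _) hym.neg ?_ hε
    filter_upwards [hst] with ω hω ε' hε'
    obtain ⟨δ, hδ, N0, hN0⟩ := hω ε' hε'
    refine ⟨δ, hδ, N0, fun N hN hNpos hKN a ha haN z hz hcl => ?_⟩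
    have := (abs_le.1 (hN0 N hN hNpos hKN a ha haN z hz hcl)).1
    linarith
  rw [Metric.tendsto_atTop]
  intro ε hε
  obtain ⟨N1, hN1⟩ := eventually_atTop.1 (hup (ε / 2) (by positivity))
  obtain ⟨N2, hN2⟩ := eventually_atTop.1 (hlo (ε / 2) (by positivity))
  refine ⟨max N1 N2, fun n hn => ?_⟩
  have hle : n ≤ K * n := Nat.le_mul_of_pos_left n hK
  have h1 := hN1 (K * n) ((le_max_left _ _).trans (hn.trans hle)) ⟨n, rfl⟩
  have h2 := hN2 (K * n) ((le_max_right _ _).trans (hn.trans hle)) ⟨n, rfl⟩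
  rw [integral_neg, integral_neg] at h2
  rw [Real.dist_eq, abs_lt]
  constructor <;> linarith

/-- measurability of the discrete waiting time -/
lemma meas_hit (h : Steps ξ P) (n : ℕ) (m : ℤ) :
    Measurable (fun ω => hit n m (fun k => walk ξ k ω)) := by
  unfold hit
  refine Measurable.iInf fun k => ?_
  refine h.meas_local (N := k) (Φ := fun z => ⨅ (_ : n ≤ k ∧ z k - z (k - n) = m), (k : ℝ≥0∞)) ?_
  intro z z' hz
  rw [hz k le_rfl, hz (k - n) (by omega)]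

lemma key {α : Type*} [MeasurableSpace α] (Q : Measure α) [IsProbabilityMeasure Q]
    (x : α → ℝ≥0∞) (N : ℕ) (hN : 0 < N) (hx : AEMeasurable x Q) :
    ENNReal.ofReal (∫ ω, (min (x ω) (N : ℝ≥0∞)).toReal / N ∂Q) =
      (∫⁻ ω, min (x ω) (N : ℝ≥0∞) ∂Q) / N := by
  have hN' : (0 : ℝ) < N := by exact_mod_cast hN
  have hint : ∫ ω, (min (x ω) (N : ℝ≥0∞)).toReal / N ∂Q =
      (∫ ω, (min (x ω) (N : ℝ≥0∞)).toReal ∂Q) / N := integral_div _ _
  have hfin : ∀ᵐ ω ∂Q, min (x ω) (N : ℝ≥0∞) < ⊤ :=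
    Eventually.of_forall fun ω => (min_le_right _ _).trans_lt (ENNReal.natCast_lt_top N)
  rw [hint, integral_toReal (hx.min aemeasurable_const) hfin, ENNReal.ofReal_div_of_pos hN',
    ENNReal.ofReal_natCast, ENNReal.ofReal_toReal]
  refine ne_of_lt (lt_of_le_of_lt (lintegral_mono fun ω => min_le_right _ _) ?_)
  rw [lintegral_const, measure_univ, mul_one]
  exact ENNReal.natCast_lt_top N

/-- the truncated means in `ℝ≥0∞` -/
lemma trunc_limit' (h : Steps ξ P) (hB : GBM B P') (l : ℝ) {K : ℕ} (hK : 0 < K) :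
    Tendsto (fun n : ℕ => (∫⁻ ω, min (hit n (lamn l n) (fun k => walk ξ k ω)) ((K * n : ℕ) : ℝ≥0∞)
      ∂P) / n) atTop (𝓝 (∫⁻ ω, min (1 + hitB l (fun t => B t ω)) (K : ℝ≥0∞) ∂P')) := by
  have hPp := h.prob
  have hPp' := hB.prob
  have hK' : (0 : ℝ) < K := by exact_mod_cast hK
  have h1 := (trunc_limit h hB l hK).const_mul (K : ℝ)
  have h2 := ENNReal.tendsto_ofReal h1
  have e1 : ENNReal.ofReal ((K : ℝ) * ∫ ω, yK K l (fun t => B t ω) ∂P') =
      ∫⁻ ω, min (1 + hitB l (fun t => B t ω)) (K : ℝ≥0∞) ∂P' := by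
    have h3 := key P' (fun ω => 1 + hitB l (fun t => B t ω)) K hK
      ((aemeasurable_const (b := (1 : ℝ≥0∞))).add (aemeas_hitB hB l))
    unfold yK
    rw [ENNReal.ofReal_mul hK'.le, h3, ENNReal.ofReal_natCast]
    exact ENNReal.mul_div_cancel (by exact_mod_cast hK.ne') (ENNReal.natCast_ne_top K)
  rw [e1] at h2
  refine h2.congr' ?_
  filter_upwards [eventually_gt_atTop 0] with n hn
  have hKn : 0 < K * n := Nat.mul_pos hK hn
  have h3 := key P (fun ω => hit n (lamn l n) (fun k => walk ξ k ω)) (K * n) hKn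
    (meas_hit h _ _).aemeasurable
  have e2 : ∀ z : ℕ → ℤ, Phi K l (K * n) z =
      (min (hit n (lamn l n) z) ((K * n : ℕ) : ℝ≥0∞)).toReal / ((K * n : ℕ) : ℝ) := by
    intro z
    unfold Phi
    rw [Nat.mul_div_cancel_left n hK]
  simp_rw [e2]
  rw [ENNReal.ofReal_mul hK'.le, h3, ENNReal.ofReal_natCast]
  push_cast
  have hKne : (K : ℝ≥0∞) ≠ 0 := by exact_mod_cast hK.ne'
  have hKt : (K : ℝ≥0∞) ≠ ⊤ := ENNReal.natCast_ne_top K
  rw [← mul_div_assoc]
  exact ENNReal.mul_div_mul_left _ _ hKne hKt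

/-- a pointwise layer-cake bound -/
lemma layer (x : ℝ≥0∞) {n : ℕ} (hn : 0 < n) (J : ℕ) :
    x ≤ min x ((2 * J * n : ℕ) : ℝ≥0∞) + ∑' j : ℕ, (2 * n : ℕ) * ({y : ℝ≥0∞ |
      ((2 * (J + j) * n : ℕ) : ℝ≥0∞) < y}.indicator (fun _ => (1 : ℝ≥0∞)) x) := by
  rcases eq_or_ne x ⊤ with hx | hx
  · subst hx
    have h1 : ∀ j : ℕ, ({y : ℝ≥0∞ |
      ((2 * (J + j) * n : ℕ) : ℝ≥0∞) < y}.indicator (fun _ => (1 : ℝ≥0∞)) ⊤) = 1 := by
      intro j
      rw [indicator_of_mem]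
      exact ENNReal.natCast_lt_top _
    simp_rw [h1]
    have h2 : ∑' _j : ℕ, ((2 * n : ℕ) : ℝ≥0∞) * 1 = ⊤ := by
      rw [mul_one]
      apply ENNReal.tsum_const_eq_top_of_ne_zero
      have : 2 * n ≠ 0 := by omega
      exact_mod_cast this
    rw [h2]
    simp
  · -- finite case
    have hex : ∃ j : ℕ, x ≤ ((2 * (J + j) * n : ℕ) : ℝ≥0∞) := by
      obtain ⟨M, hM⟩ := ENNReal.exists_nat_gt hx
      refine ⟨M, hM.le.trans ?_⟩
      have : M ≤ 2 * (J + M) * n := by nlinarith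
      exact_mod_cast this
    classical
    set i := Nat.find hex with hi
    have hi1 : x ≤ ((2 * (J + i) * n : ℕ) : ℝ≥0∞) := Nat.find_spec hex
    have hi2 : ∀ j < i, ((2 * (J + j) * n : ℕ) : ℝ≥0∞) < x := fun j hj =>
      not_le.1 (Nat.find_min hex hj)
    rcases Nat.eq_zero_or_pos i with h0 | hpos
    · rw [h0, add_zero] at hi1
      exact (le_min le_rfl hi1).trans le_self_add
    · have h3 : ((2 * J * n : ℕ) : ℝ≥0∞) ≤ x := by
        have := (hi2 0 hpos).le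
        simpa using this
      rw [min_eq_right h3]
      have h4 : ∑ j ∈ Finset.range i, ((2 * n : ℕ) : ℝ≥0∞) * ({y : ℝ≥0∞ |
          ((2 * (J + j) * n : ℕ) : ℝ≥0∞) < y}.indicator (fun _ => (1 : ℝ≥0∞)) x) =
          (i : ℝ≥0∞) * ((2 * n : ℕ) : ℝ≥0∞) := by
        rw [Finset.sum_congr rfl (g := fun _ => ((2 * n : ℕ) : ℝ≥0∞))]
        · rw [Finset.sum_const, Finset.card_range, nsmul_eq_mul]
        · intro j hj
          rw [indicator_of_mem (show x ∈ {y : ℝ≥0∞ | ((2 * (J + j) * n : ℕ) : ℝ≥0∞) < y} from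
            hi2 j (Finset.mem_range.1 hj)), mul_one]
      have h5 := ENNReal.sum_le_tsum (f := fun j : ℕ => ((2 * n : ℕ) : ℝ≥0∞) * ({y : ℝ≥0∞ |
          ((2 * (J + j) * n : ℕ) : ℝ≥0∞) < y}.indicator (fun _ => (1 : ℝ≥0∞)) x)) (Finset.range i)
      rw [h4] at h5
      calc x ≤ ((2 * (J + i) * n : ℕ) : ℝ≥0∞) := hi1
        _ = ((2 * J * n : ℕ) : ℝ≥0∞) + (i : ℝ≥0∞) * ((2 * n : ℕ) : ℝ≥0∞) := by
            push_cast
            ring
        _ ≤ _ := by gcongr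

/-- the means are controlled by the truncated means -/
lemma mean_le (h : Steps ξ P) (l : ℝ) : ∃ c : ℝ, 0 ≤ c ∧ c < 1 ∧ ∃ n0 : ℕ, ∀ n ≥ n0, 0 < n →
    ∀ J : ℕ, (∫⁻ ω, hit n (lamn l n) (fun k => walk ξ k ω) ∂P) / n ≤
      (∫⁻ ω, min (hit n (lamn l n) (fun k => walk ξ k ω)) ((2 * J * n : ℕ) : ℝ≥0∞) ∂P) / n +
        ENNReal.ofReal (2 * c ^ J / (1 - c)) := by
  have hPp := h.prob
  obtain ⟨c, hc0, hc1, n0, hn0⟩ := tail h l
  refine ⟨c, hc0, hc1, n0, fun n hn hnpos J => ?_⟩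
  have hn' : (n : ℝ≥0∞) ≠ 0 := by exact_mod_cast hnpos.ne'
  have hnt : (n : ℝ≥0∞) ≠ ⊤ := ENNReal.natCast_ne_top n
  set T : Ω → ℝ≥0∞ := fun ω => hit n (lamn l n) (fun k => walk ξ k ω) with hT
  have hTm : Measurable T := meas_hit h _ _
  have hSm : ∀ j : ℕ, MeasurableSet {y : ℝ≥0∞ | ((2 * (J + j) * n : ℕ) : ℝ≥0∞) < y} := fun j =>
    measurableSet_Ioi
  have h1 : ∫⁻ ω, T ω ∂P ≤ ∫⁻ ω, min (T ω) ((2 * J * n : ℕ) : ℝ≥0∞) ∂P +
      ∑' j : ℕ, ((2 * n : ℕ) : ℝ≥0∞) * ENNReal.ofReal (c ^ (J + j)) := by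
    calc ∫⁻ ω, T ω ∂P ≤ ∫⁻ ω, (min (T ω) ((2 * J * n : ℕ) : ℝ≥0∞) +
          ∑' j : ℕ, ((2 * n : ℕ) : ℝ≥0∞) * ({y : ℝ≥0∞ |
      ((2 * (J + j) * n : ℕ) : ℝ≥0∞) < y}.indicator (fun _ => (1 : ℝ≥0∞)) (T ω))) ∂P :=
          lintegral_mono fun ω => layer (T ω) hnpos J
      _ = ∫⁻ ω, min (T ω) ((2 * J * n : ℕ) : ℝ≥0∞) ∂P +
          ∫⁻ ω, ∑' j : ℕ, ((2 * n : ℕ) : ℝ≥0∞) * ({y : ℝ≥0∞ |
      ((2 * (J + j) * n : ℕ) : ℝ≥0∞) < y}.indicator (fun _ => (1 : ℝ≥0∞)) (T ω)) ∂P :=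
          lintegral_add_left (hTm.min measurable_const) _
      _ = ∫⁻ ω, min (T ω) ((2 * J * n : ℕ) : ℝ≥0∞) ∂P +
          ∑' j : ℕ, ∫⁻ ω, ((2 * n : ℕ) : ℝ≥0∞) * ({y : ℝ≥0∞ |
      ((2 * (J + j) * n : ℕ) : ℝ≥0∞) < y}.indicator (fun _ => (1 : ℝ≥0∞)) (T ω)) ∂P := by
          rw [lintegral_tsum]
          intro j
          exact (((measurable_const.indicator (hSm j)).comp hTm).const_mul _).aemeasurable
      _ ≤ _ := by
          gcongr with j
          rw [lintegral_const_mul' _ _ (ENNReal.natCast_ne_top _)]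
          gcongr
          have h2 : ∫⁻ ω, ({y : ℝ≥0∞ | ((2 * (J + j) * n : ℕ) : ℝ≥0∞) < y}.indicator
              (fun _ => (1 : ℝ≥0∞)) (T ω)) ∂P =
              P {ω | ((2 * (J + j) * n : ℕ) : ℝ≥0∞) < T ω} := by
            have : (fun ω => ({y : ℝ≥0∞ | ((2 * (J + j) * n : ℕ) : ℝ≥0∞) < y}.indicator
              (fun _ => (1 : ℝ≥0∞)) (T ω))) =
              ({ω | ((2 * (J + j) * n : ℕ) : ℝ≥0∞) < T ω}).indicator (fun _ => (1 : ℝ≥0∞)) := by
              funext ω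
              rfl
            rw [this, lintegral_indicator (measurableSet_lt measurable_const hTm),
              lintegral_const, Measure.restrict_apply_univ, one_mul]
          rw [h2]
          have h3 := hn0 n hn (J + j)
          rw [← ENNReal.ofReal_toReal (measure_ne_top P {ω | ((2 * (J + j) * n : ℕ) : ℝ≥0∞) < T ω})]
          exact ENNReal.ofReal_le_ofReal h3
  have h2 : ∑' j : ℕ, ((2 * n : ℕ) : ℝ≥0∞) * ENNReal.ofReal (c ^ (J + j)) =
      (n : ℝ≥0∞) * ENNReal.ofReal (2 * c ^ J / (1 - c)) := by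
    have hs : Summable fun j : ℕ => c ^ (J + j) := by
      simp_rw [pow_add]
      exact (summable_geometric_of_lt_one hc0 hc1).mul_left _
    rw [ENNReal.tsum_mul_left, ← ENNReal.ofReal_tsum_of_nonneg (fun j => by positivity) hs]
    have h3 : ∑' j : ℕ, c ^ (J + j) = c ^ J / (1 - c) := by
      simp_rw [pow_add]
      rw [tsum_mul_left, tsum_geometric_of_lt_one hc0 hc1, div_eq_mul_inv]
    rw [h3]
    have h4 : 2 * c ^ J / (1 - c) = 2 * (c ^ J / (1 - c)) := by ring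
    rw [h4, ENNReal.ofReal_mul (by norm_num)]
    push_cast
    rw [ENNReal.ofReal_ofNat]
    ring
  rw [h2] at h1
  calc (∫⁻ ω, T ω ∂P) / n ≤ (∫⁻ ω, min (T ω) ((2 * J * n : ℕ) : ℝ≥0∞) ∂P +
        (n : ℝ≥0∞) * ENNReal.ofReal (2 * c ^ J / (1 - c))) / n := by gcongr
    _ = (∫⁻ ω, min (T ω) ((2 * J * n : ℕ) : ℝ≥0∞) ∂P) / n +
        ((n : ℝ≥0∞) * ENNReal.ofReal (2 * c ^ J / (1 - c))) / n := ENNReal.add_div
    _ = _ := by
      congr 1
      rw [mul_comm, mul_div_assoc, ENNReal.div_self hn' hnt, mul_one]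

/-- the conclusion for good versions -/
theorem main_good (h : Steps ξ P) (hB : GBM B P') (l : ℝ) :
    (∫⁻ ω, hitB l (fun t => B t ω) ∂P') < ⊤ ∧
    Tendsto (fun n : ℕ => (∫⁻ ω, hit n (lamn l n) (fun k => walk ξ k ω) ∂P) / n) atTop
      (𝓝 (1 + ∫⁻ ω, hitB l (fun t => B t ω) ∂P')) := by
  have hPp := h.prob
  have hPp' := hB.prob
  set u : ℕ → ℝ≥0∞ := fun n => (∫⁻ ω, hit n (lamn l n) (fun k => walk ξ k ω) ∂P) / n with hu
  set v : ℕ → ℕ → ℝ≥0∞ := fun K n => (∫⁻ ω, min (hit n (lamn l n) (fun k => walk ξ k ω))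
    ((K * n : ℕ) : ℝ≥0∞) ∂P) / n with hv
  set w : ℕ → ℝ≥0∞ := fun K => ∫⁻ ω, min (1 + hitB l (fun t => B t ω)) (K : ℝ≥0∞) ∂P' with hw
  have hmeas : AEMeasurable (fun ω => 1 + hitB l (fun t => B t ω)) P' :=
    (aemeasurable_const (b := (1 : ℝ≥0∞))).add (aemeas_hitB hB l)
  set L : ℝ≥0∞ := ∫⁻ ω, (1 + hitB l (fun t => B t ω)) ∂P' with hL
  have hLeq : L = 1 + ∫⁻ ω, hitB l (fun t => B t ω) ∂P' := by
    rw [hL, lintegral_add_left measurable_const, lintegral_const, measure_univ, mul_one]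
  have hA : ∀ K, 0 < K → Tendsto (v K) atTop (𝓝 (w K)) := fun K hK => trunc_limit' h hB l hK
  have hBv : ∀ K n, v K n ≤ u n := fun K n =>
    ENNReal.div_le_div_right (lintegral_mono fun ω => min_le_left _ _) _
  have hwL : ∀ K, w K ≤ L := fun K => lintegral_mono fun ω => min_le_left _ _
  have hsup : ⨆ K, w K = L := by
    have h1 : ∀ x : ℝ≥0∞, ⨆ K : ℕ, min x (K : ℝ≥0∞) = x := by
      intro x
      apply le_antisymm (iSup_le fun K => min_le_left _ _)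
      rcases eq_or_ne x ⊤ with hx | hx
      · subst hx
        simp only [min_eq_right le_top]
        rw [ENNReal.iSup_natCast]
      · obtain ⟨M, hM⟩ := ENNReal.exists_nat_gt hx
        exact le_iSup_of_le M (le_min le_rfl hM.le)
    rw [hw, ← lintegral_iSup']
    · simp_rw [h1]
      rfl
    · intro K
      exact hmeas.min aemeasurable_const
    · filter_upwards with ω K K' hKK
      have : (K : ℝ≥0∞) ≤ K' := by exact_mod_cast hKK
      exact min_le_min le_rfl this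
  have hlow : L ≤ liminf u atTop := by
    rw [← hsup]
    refine iSup_le fun K => ?_
    rcases Nat.eq_zero_or_pos K with h0 | hpos
    · have : w K ≤ w 1 := by
        refine lintegral_mono fun ω => min_le_min le_rfl ?_
        rw [h0]
        simp
      refine this.trans ?_
      rw [← (hA 1 one_pos).liminf_eq]
      exact liminf_le_liminf (Eventually.of_forall (hBv 1))
    · rw [← (hA K hpos).liminf_eq]
      exact liminf_le_liminf (Eventually.of_forall (hBv K))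
  obtain ⟨c, hc0, hc1, n0, hn0⟩ := mean_le h l
  have hup : ∀ J, 0 < J → limsup u atTop ≤ w (2 * J) + ENNReal.ofReal (2 * c ^ J / (1 - c)) := by
    intro J hJ
    have h1 : Tendsto (fun n => v (2 * J) n + ENNReal.ofReal (2 * c ^ J / (1 - c))) atTop
        (𝓝 (w (2 * J) + ENNReal.ofReal (2 * c ^ J / (1 - c)))) :=
      (hA (2 * J) (by omega)).add tendsto_const_nhds
    rw [← h1.limsup_eq]
    refine limsup_le_limsup ?_
    filter_upwards [eventually_ge_atTop n0, eventually_gt_atTop 0] with n hn hnpos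
    exact hn0 n hn hnpos J
  have hfin : L < ⊤ := by
    have h1 : L ≤ w (2 * 1) + ENNReal.ofReal (2 * c ^ 1 / (1 - c)) :=
      hlow.trans ((liminf_le_limsup).trans (hup 1 one_pos))
    refine h1.trans_lt ?_
    rw [ENNReal.add_lt_top]
    refine ⟨?_, ENNReal.ofReal_lt_top⟩
    refine (lintegral_mono fun ω => min_le_right _ _).trans_lt ?_
    rw [lintegral_const, measure_univ, mul_one]
    exact ENNReal.natCast_lt_top _
  have hup' : limsup u atTop ≤ L := by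
    have h1 : Tendsto (fun J : ℕ => L + ENNReal.ofReal (2 * c ^ J / (1 - c))) atTop (𝓝 (L + 0)) := by
      refine Tendsto.add tendsto_const_nhds ?_
      have h2 : Tendsto (fun J : ℕ => 2 * c ^ J / (1 - c)) atTop (𝓝 (2 * 0 / (1 - c))) :=
        ((tendsto_pow_atTop_nhds_zero_of_lt_one hc0 hc1).const_mul 2).div_const _
      have h3 := ENNReal.tendsto_ofReal h2
      simpa using h3
    rw [add_zero] at h1
    refine ge_of_tendsto h1 ?_
    filter_upwards [eventually_gt_atTop 0] with J hJ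
    exact (hup J hJ).trans (by gcongr; exact hwL _)
  constructor
  · rw [hLeq] at hfin
    exact (ENNReal.add_lt_top.1 hfin).2
  · rw [← hLeq]
    exact tendsto_of_le_liminf_of_limsup_le hlow hup'

/-- the conclusion for Brownian motions -/
theorem main (h : Steps ξ P) (hB : IsBrownianReal B P') (l : ℝ) :
    (∫⁻ ω, hitB l (fun t => B t ω) ∂P') < ⊤ ∧
    Tendsto (fun n : ℕ => (∫⁻ ω, hit n (lamn l n) (fun k => walk ξ k ω) ∂P) / n) atTop
      (𝓝 (1 + ∫⁻ ω, hitB l (fun t => B t ω) ∂P')) := by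
  obtain ⟨B', hB', hae⟩ := good_version hB
  have h1 : ∫⁻ ω, hitB l (fun t => B t ω) ∂P' = ∫⁻ ω, hitB l (fun t => B' t ω) ∂P' := by
    refine lintegral_congr_ae ?_
    filter_upwards [hae] with ω hω
    have : (fun t => B t ω) = fun t => B' t ω := by
      funext t
      exact (hω t).symm
    rw [this]
  rw [h1]
  exact main_good h hB' l

end Pool.Agent.R986.BP
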