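import Pool.Agent.R974.Span.Inv4
import Pool.Agent.R986.BP.Defs

/-!
# The invariance principle for functionals which know the scale of the walk

Adapted from `Pool.Agent.R974.Span` (helper974): the test paths now have steps `±1`, a number of
steps divisible by `K` and a scale `a` with `a √N` close to `1`.
-/

open MeasureTheory ProbabilityTheory Filter Topology Set
open scoped ENNReal NNReal BoundedContinuousFunction

namespace Pool.Agent.R986.BP

open Pool.Agent.R974.Span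

variable {Ω : Type*} [MeasurableSpace Ω] {P : Measure Ω}
variable {Ω' : Type*} [MeasurableSpace Ω'] {P' : Measure Ω'}
variable {ξ : ℕ → Ω → ℤ} {B : ℝ≥0 → Ω' → ℝ}

/-- the discrete test paths -/
structure Tst (K n : ℕ) where
  N : ℕ
  a : ℝ
  z : ℕ → ℤ
  hN : n ≤ N
  hN0 : 0 < N
  hK : K ∣ N
  ha : 0 < a
  haN : |a * √(N : ℝ) - 1| ≤ 1 / ((n : ℝ) + 1)
  hz : PM N z

theorem nonempty_tst {K : ℕ} (hK : 0 < K) (n : ℕ) : Nonempty (Tst K n) := by
  have hpos : 0 < K * (n + 1) := Nat.mul_pos hK (by omega)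
  have hle : n ≤ K * (n + 1) := by nlinarith
  have hs : 0 < √((K * (n + 1) : ℕ) : ℝ) := Real.sqrt_pos.2 (by exact_mod_cast hpos)
  refine ⟨⟨K * (n + 1), (√((K * (n + 1) : ℕ) : ℝ))⁻¹, fun k => (k : ℤ), hle, hpos, ⟨n + 1, rfl⟩,
    inv_pos.2 hs, ?_, ?_⟩⟩
  · rw [inv_mul_cancel₀ hs.ne', sub_self, abs_zero]
    positivity
  · intro k _
    left
    push_cast
    ring

/-- the upper envelope -/
noncomputable def Hf (K : ℕ) (Φ : ℕ → (ℕ → ℤ) → ℝ) (C0 η : ℝ) (n M : ℕ) (x : Fin M → ℝ) : ℝ :=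
  ⨆ p : Tst K n, (Φ p.N p.z - 2 * C0 * pen η (Dd p.N p.a p.z x))

section
variable {K : ℕ} {Φ : ℕ → (ℕ → ℤ) → ℝ} {C0 η : ℝ} (hK : 0 < K) (hΦ : ∀ N z, |Φ N z| ≤ C0)
  (hη : 0 < η)
include hΦ

omit hK in
lemma term_le (n M : ℕ) (x : Fin M → ℝ) (p : Tst K n) :
    Φ p.N p.z - 2 * C0 * pen η (Dd p.N p.a p.z x) ≤ C0 := by
  have h1 := (abs_le.mp (hΦ p.N p.z)).2
  have h2 := C0_nonneg hΦ
  have h3 := mul_nonneg h2 (pen_nonneg η (Dd p.N p.a p.z x))
  linarith

lemma term_le_Hf (n M : ℕ) (x : Fin M → ℝ) (p : Tst K n) :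
    Φ p.N p.z - 2 * C0 * pen η (Dd p.N p.a p.z x) ≤ Hf K Φ C0 η n M x :=
  le_ciSup (f := fun p : Tst K n => Φ p.N p.z - 2 * C0 * pen η (Dd p.N p.a p.z x))
    ⟨C0, by rintro _ ⟨p, rfl⟩; exact term_le hΦ n M x p⟩ p

include hK in
lemma Hf_le (n M : ℕ) (x : Fin M → ℝ) : Hf K Φ C0 η n M x ≤ C0 := by
  have := nonempty_tst hK n
  exact ciSup_le fun p => term_le hΦ n M x p

include hK in
lemma le_Hf (n M : ℕ) (x : Fin M → ℝ) : -(3 * C0) ≤ Hf K Φ C0 η n M x := by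
  obtain ⟨p⟩ : Nonempty (Tst K n) := nonempty_tst hK n
  have h0 := term_le_Hf (η := η) hΦ n M x p
  have h1 := (abs_le.mp (hΦ p.N p.z)).1
  have h2 := C0_nonneg hΦ
  have h3 := mul_le_mul_of_nonneg_left (pen_le_one η (Dd p.N p.a p.z x)) h2
  linarith

include hK in
lemma Hf_abs (n M : ℕ) (x : Fin M → ℝ) : |Hf K Φ C0 η n M x| ≤ 3 * C0 := by
  have h2 := C0_nonneg hΦ
  rw [abs_le]
  exact ⟨le_Hf hK hΦ n M x, (Hf_le hK hΦ n M x).trans (by linarith)⟩

include hη hK in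
lemma Hf_cont (n M : ℕ) : Continuous (Hf K Φ C0 η n M) := by
  have h2 := C0_nonneg hΦ
  have hne := nonempty_tst hK n
  refine (LipschitzWith.of_le_add_mul' (2 * C0 * (M / η)) fun x y => ?_).continuous
  refine ciSup_le fun p => ?_
  have h1 := term_le_Hf (η := η) hΦ n M y p
  have h3 : pen η (Dd p.N p.a p.z y) ≤ pen η (Dd p.N p.a p.z x) + (M * dist x y) / η := by
    refine pen_le hη (by positivity) ?_
    rw [dist_comm]
    exact Dd_lip y x
  have h4 := mul_le_mul_of_nonneg_left h3 (by positivity : 0 ≤ 2 * C0)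
  have h5 : 2 * C0 * (M / η) * dist x y = 2 * C0 * ((M * dist x y) / η) := by ring
  rw [h5]
  linarith

/-- as a bounded continuous function -/
noncomputable def Hb (hK : 0 < K) (hη : 0 < η) (n M : ℕ) : (Fin M → ℝ) →ᵇ ℝ :=
  BoundedContinuousFunction.ofNormedAddCommGroup (Hf K Φ C0 η n M) (Hf_cont hK hΦ hη n M) (3 * C0)
    (fun x => by rw [Real.norm_eq_abs]; exact Hf_abs hK hΦ n M x)

include hη in
lemma Hf_good {n M : ℕ} {x : Fin M → ℝ} {N : ℕ} {a : ℝ} {z : ℕ → ℤ} (hN : n ≤ N) (hN0 : 0 < N)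
    (hKN : K ∣ N) (ha : 0 < a) (haN : |a * √(N : ℝ) - 1| ≤ 1 / ((n : ℝ) + 1)) (hz : PM N z)
    (hgood : ∀ k ≤ N, |a * z k - cum x (k * M / N)| ≤ η) : Φ N z ≤ Hf K Φ C0 η n M x := by
  have h1 := term_le_Hf (η := η) hΦ n M x ⟨N, a, z, hN, hN0, hKN, ha, haN, hz⟩
  simp only at h1
  rw [pen_zero hη (Dd_le hgood)] at h1
  linarith

lemma Hf_bad {n M : ℕ} {x : Fin M → ℝ} {N : ℕ} {z : ℕ → ℤ} (hN : n ≤ N) (hN0 : 0 < N)
    (hKN : K ∣ N) (hz : PM N z) : Φ N z ≤ Hf K Φ C0 η n M x + 2 * C0 := by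
  have hs : 0 < √(N : ℝ) := Real.sqrt_pos.2 (by exact_mod_cast hN0)
  have h1 := term_le_Hf (η := η) hΦ n M x ⟨N, (√(N : ℝ))⁻¹, z, hN, hN0, hKN, inv_pos.2 hs, by
    rw [inv_mul_cancel₀ hs.ne', sub_self, abs_zero]
    positivity, hz⟩
  simp only at h1
  have h2 := C0_nonneg hΦ
  have h3 := mul_le_mul_of_nonneg_left (pen_le_one η (Dd N (√(N : ℝ))⁻¹ z x)) h2
  linarith

include hη hK in
lemma Hf_limit {n M : ℕ} {f : ℝ≥0 → ℝ} (hf0 : f 0 = 0) {Y ε : ℝ}
    (hY : -C0 ≤ Y) (hε : 0 ≤ ε)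
    (hstab : ∀ N ≥ n, 0 < N → K ∣ N → ∀ a > 0, |a * √(N : ℝ) - 1| ≤ 1 / ((n : ℝ) + 1) →
      ∀ z : ℕ → ℤ, PM N z →
      (∀ k ≤ N, |a * z k - f ((k : ℝ≥0) / N)| ≤ 3 * η) → Φ N z ≤ Y + ε)
    (hosc : ∀ N : ℕ, 0 < N → ∀ k ≤ N, |f ((k : ℝ≥0) / N) - f (((k * M / N : ℕ) : ℝ≥0) / M)| ≤ η) :
    Hf K Φ C0 η n M (fun j => f (((j : ℕ) + 1 : ℕ) / (M : ℝ≥0)) - f ((j : ℕ) / (M : ℝ≥0))) ≤
      Y + ε := by
  have hne := nonempty_tst hK n
  refine ciSup_le fun p => ?_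
  set x : Fin M → ℝ := fun j => f (((j : ℕ) + 1 : ℕ) / (M : ℝ≥0)) - f ((j : ℕ) / (M : ℝ≥0)) with hx
  have h2 := C0_nonneg hΦ
  rcases le_total (2 * η) (Dd p.N p.a p.z x) with h | h
  · rw [pen_one hη h]
    have h1 := (abs_le.mp (hΦ p.N p.z)).2
    linarith
  · have hp := mul_nonneg h2 (pen_nonneg η (Dd p.N p.a p.z x))
    have h3 : Φ p.N p.z ≤ Y + ε := by
      refine hstab p.N p.hN p.hN0 p.hK p.a p.ha p.haN p.z p.hz fun k hk => ?_
      have h4 := le_Dd (a := p.a) (z := p.z) x hk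
      have h5 : k * M / p.N ≤ M := by
        rw [Nat.div_le_iff_le_mul_add_pred p.hN0]
        have := Nat.mul_le_mul_right M hk
        omega
      have h6 : cum x (k * M / p.N) = f (((k * M / p.N : ℕ) : ℝ≥0) / M) := by
        have := cum_telescope (M := M) (fun j => f ((j : ℝ≥0) / (M : ℝ≥0))) h5
        simp only [Nat.cast_zero, zero_div, hf0, sub_zero] at this
        exact this
      rw [h6] at h4
      have h7 := hosc p.N p.hN0 k hk
      have h8 := abs_sub_le (p.a * (p.z k : ℝ)) (f (((k * M / p.N : ℕ) : ℝ≥0) / M))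
        (f ((k : ℝ≥0) / p.N))
      rw [abs_sub_comm (f (((k * M / p.N : ℕ) : ℝ≥0) / M))] at h8
      linarith
    linarith

end

lemma ae_pm (h : Steps ξ P) : ∀ᵐ ω ∂P, ∀ N, PM N (fun k => walk ξ k ω) := by
  filter_upwards [h.ae_step] with ω hω N k _
  have : walk ξ (k + 1) ω - walk ξ k ω = ξ k ω := by
    unfold walk
    rw [Finset.sum_range_succ]; ring
  rw [this]
  exact hω k

/-- the scale used by the block approximation is asymptotically right -/
lemma scale_tendsto {M : ℕ} (hM : 0 < M) :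
    Tendsto (fun N : ℕ => (√(M * (N / M : ℕ) : ℝ))⁻¹ * √(N : ℝ)) atTop (𝓝 1) := by
  have hM' : (0 : ℝ) < M := by exact_mod_cast hM
  have h1 : Tendsto (fun N : ℕ => ((N : ℝ) / (M * (N / M : ℕ) : ℝ))) atTop (𝓝 1) := by
    have h2 : Tendsto (fun N : ℕ => 1 + (M : ℝ) / ((N : ℝ) - M)) atTop (𝓝 (1 + 0)) := by
      apply Tendsto.const_add
      apply Tendsto.const_div_atTop
      exact tendsto_atTop_add_const_right _ _ tendsto_natCast_atTop_atTop
    rw [add_zero] at h2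
    refine tendsto_of_tendsto_of_tendsto_of_le_of_le' tendsto_const_nhds h2 ?_ ?_
    · filter_upwards [eventually_ge_atTop M] with N hN
      have hb : 0 < N / M := Nat.div_pos hN hM
      have hb' : (0 : ℝ) < (N / M : ℕ) := by exact_mod_cast hb
      rw [le_div_iff₀ (by positivity), one_mul]
      have : M * (N / M) ≤ N := Nat.mul_div_le _ _
      exact_mod_cast this
    · filter_upwards [eventually_gt_atTop (2 * M)] with N hN
      have hb : 0 < N / M := Nat.div_pos (by omega) hM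
      have hb' : (0 : ℝ) < (N / M : ℕ) := by exact_mod_cast hb
      have h3 : N < M * (N / M + 1) := Nat.lt_mul_div_succ N hM
      have h3' : (N : ℝ) < M * ((N / M : ℕ) : ℝ) + M := by
        have : (N : ℝ) < ((M * (N / M + 1) : ℕ) : ℝ) := by exact_mod_cast h3
        push_cast at this
        linarith
      have hNM : (0 : ℝ) < (N : ℝ) - M := by
        have : (2 * M : ℝ) < N := by exact_mod_cast hN
        linarith
      have hMb : (0 : ℝ) < M * ((N / M : ℕ) : ℝ) := by positivity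
      rw [div_le_iff₀ hMb, add_mul, one_mul]
      have h4 : (M : ℝ) ≤ M / ((N : ℝ) - M) * (M * ((N / M : ℕ) : ℝ)) := by
        rw [div_mul_eq_mul_div, le_div_iff₀ hNM]
        nlinarith
      linarith
  have h5 := (Real.continuous_sqrt.tendsto 1).comp h1
  rw [Real.sqrt_one] at h5
  refine h5.congr fun N => ?_
  simp only [Function.comp]
  rw [Real.sqrt_div' _ (by positivity), div_eq_inv_mul]

section
variable {K : ℕ} {Φ : ℕ → (ℕ → ℤ) → ℝ} {C0 : ℝ}

lemma step_one (hK : 0 < K) (h : Steps ξ P) (hB : GBM B P') (hΦ : ∀ N z, |Φ N z| ≤ C0)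
    (hloc : ∀ N z z', (∀ k ≤ N, z k = z' k) → Φ N z = Φ N z') {η : ℝ} (hη : 0 < η) (n : ℕ)
    {M : ℕ} (hM : 0 < M) {ε : ℝ} (hε : 0 < ε) :
    ∀ᶠ N in atTop, K ∣ N → ∫ ω, Φ N (fun k => walk ξ k ω) ∂P ≤
      ∫ ω, Hf K Φ C0 η n M (fun j => B (((j : ℕ) + 1 : ℕ) / (M : ℝ≥0)) ω -
        B ((j : ℕ) / (M : ℝ≥0)) ω) ∂P' + ε +
      2 * C0 * ((M + 1) * (4 * Real.exp (-(η ^ 2 * M / 16)))) := by
  have := h.prob
  have hC := C0_nonneg hΦ
  have h1 := h.block_conv hB hM (Hb hΦ hK hη n M)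
  have h2 : Tendsto (fun N : ℕ => N / M) atTop atTop := Nat.tendsto_div_const_atTop hM.ne'
  have e0 : (∫ ω, (Hb hΦ hK hη n M) (fun j => B (((j : ℕ) + 1 : ℕ) / (M : ℝ≥0)) ω -
        B ((j : ℕ) / (M : ℝ≥0)) ω) ∂P') = ∫ ω, Hf K Φ C0 η n M
        (fun j => B (((j : ℕ) + 1 : ℕ) / (M : ℝ≥0)) ω - B ((j : ℕ) / (M : ℝ≥0)) ω) ∂P' := rfl
  have h3 := Tendsto.eventually_lt_const (u := ∫ ω, Hf K Φ C0 η n M
    (fun j => B (((j : ℕ) + 1 : ℕ) / (M : ℝ≥0)) ω - B ((j : ℕ) / (M : ℝ≥0)) ω) ∂P' + ε) (by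
      rw [e0]; linarith) (h1.comp h2)
  have hsc : ∀ᶠ N : ℕ in atTop, |(√(M * (N / M : ℕ) : ℝ))⁻¹ * √(N : ℝ) - 1| ≤ 1 / ((n : ℝ) + 1) := by
    have h4 := Metric.tendsto_atTop.1 (scale_tendsto hM) (1 / ((n : ℝ) + 1)) (by positivity)
    obtain ⟨N1, hN1⟩ := h4
    filter_upwards [eventually_ge_atTop N1] with N hN
    have := hN1 N hN
    rw [Real.dist_eq] at this
    exact this.le
  filter_upwards [h3, eventually_ge_atTop (max (n + 1) (M * M)), hsc] with N hN1 hN2 hsN hKN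
  have hN3 : ∫ ω, Hf K Φ C0 η n M (fun j : Fin M => (√(M * (N / M : ℕ) : ℝ))⁻¹ *
      blk ξ (N / M) j ω) ∂P <
      ∫ ω, Hf K Φ C0 η n M (fun j => B (((j : ℕ) + 1 : ℕ) / (M : ℝ≥0)) ω -
        B ((j : ℕ) / (M : ℝ≥0)) ω) ∂P' + ε := hN1
  have hNn : n + 1 ≤ N := (le_max_left _ _).trans hN2
  have hNM : M * M ≤ N := (le_max_right _ _).trans hN2
  set a : ℝ := (√(M * (N / M : ℕ) : ℝ))⁻¹ with ha
  have hapos : 0 < a := by
    have : 0 < N / M := Nat.div_pos (by nlinarith) hM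
    have h5 : (0:ℝ) < (N / M : ℕ) := by exact_mod_cast this
    have h6 : (0:ℝ) < M := by exact_mod_cast hM
    exact inv_pos.mpr (Real.sqrt_pos.mpr (by positivity))
  set E : Set Ω := {ω | ∃ k ≤ N, η < |a * S ξ k ω - a * S ξ ((k * M / N) * (N / M)) ω|} with hE
  have hEm : MeasurableSet E := by
    have : E = ⋃ k, ⋃ _ : k ≤ N,
        {ω | η < |a * S ξ k ω - a * S ξ ((k * M / N) * (N / M)) ω|} := by
      ext ω; simp [hE]
    rw [this]
    exact MeasurableSet.iUnion fun k => MeasurableSet.iUnion fun _ =>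
      measurableSet_lt measurable_const
        (((h.measS _).const_mul _).sub ((h.measS _).const_mul _)).abs
  have hEP := h.dev hM hNM hη
  have hEP' : P.real E ≤ (M + 1) * (4 * Real.exp (-(η ^ 2 * M / 16))) := hEP
  have hHm : Measurable (fun ω => Hf K Φ C0 η n M (fun j : Fin M => a * blk ξ (N / M) j ω)) :=
    (Hf_cont hK hΦ hη n M).measurable.comp
      (measurable_pi_lambda _ fun j => (h.meas_blk _ _).const_mul _)
  have hHi : Integrable (fun ω => Hf K Φ C0 η n M (fun j : Fin M => a * blk ξ (N / M) j ω)) P :=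
    Integrable.of_bound hHm.aestronglyMeasurable (3 * C0) (Eventually.of_forall fun ω => by
      rw [Real.norm_eq_abs]; exact Hf_abs hK hΦ n M _)
  have hΦi : Integrable (fun ω => Φ N (fun k => walk ξ k ω)) P :=
    Integrable.of_bound (h.meas_local (hloc N)).aestronglyMeasurable C0
      (Eventually.of_forall fun ω => by rw [Real.norm_eq_abs]; exact hΦ N _)
  have hEi : Integrable (fun ω => E.indicator (fun _ => 2 * C0) ω) P :=
    (integrable_const _).indicator hEm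
  have h7 : ∫ ω, Φ N (fun k => walk ξ k ω) ∂P ≤
      ∫ ω, (Hf K Φ C0 η n M (fun j : Fin M => a * blk ξ (N / M) j ω) +
        E.indicator (fun _ => 2 * C0) ω) ∂P := by
    apply integral_mono_ae hΦi (hHi.add hEi)
    filter_upwards [ae_pm h] with ω hω
    change Φ N (fun k => walk ξ k ω) ≤ Hf K Φ C0 η n M (fun j : Fin M => a * blk ξ (N / M) j ω) +
        E.indicator (fun _ => 2 * C0) ω
    by_cases hωE : ω ∈ E
    · rw [indicator_of_mem hωE]
      exact Hf_bad hΦ (by omega) (by omega) hKN (hω N)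
    · rw [indicator_of_notMem hωE, add_zero]
      refine Hf_good hΦ hη (by omega) (by omega) hKN hapos hsN (hω N) fun k hk => ?_
      have h8 : ¬ ∃ k ≤ N, η < |a * S ξ k ω - a * S ξ ((k * M / N) * (N / M)) ω| := hωE
      push Not at h8
      have h9 := h8 k hk
      obtain ⟨b1, -, -⟩ := div_bounds hM (by omega : 0 < N) hk
      have h10 : cum (fun j : Fin M => a * blk ξ (N / M) j ω) (k * M / N) =
          a * S ξ ((k * M / N) * (N / M)) ω := by
        have h11 := cum_telescope (M := M) (fun j => a * S ξ (j * (N / M)) ω) b1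
        simp only [zero_mul] at h11
        have h12 : S ξ 0 ω = 0 := by simp [S]
        rw [h12, mul_zero, sub_zero] at h11
        rw [← h11]
        congr 1
        funext j
        rw [blk_eq, mul_sub]
      rw [h10, ← S_eq]
      exact h9
  rw [integral_add hHi hEi, integral_indicator hEm, setIntegral_const, smul_eq_mul] at h7
  have h8 : P.real E * (2 * C0) ≤ 2 * C0 * ((M + 1) * (4 * Real.exp (-(η ^ 2 * M / 16)))) := by
    rw [mul_comm]
    exact mul_le_mul_of_nonneg_left hEP' (by positivity)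
  linarith

/-- one half of the invariance principle -/
theorem inv_upper (hK : 0 < K) (h : Steps ξ P) (hB : GBM B P') (hΦ : ∀ N z, |Φ N z| ≤ C0)
    (hloc : ∀ N z z', (∀ k ≤ N, z k = z' k) → Φ N z = Φ N z') {y : Ω' → ℝ}
    (hy : ∀ ω, |y ω| ≤ C0) (hym : AEStronglyMeasurable y P')
    (hst : ∀ᵐ ω ∂P', ∀ ε > 0, ∃ δ > 0, ∃ N0 : ℕ, ∀ N ≥ N0, 0 < N → K ∣ N → ∀ a > 0,
      |a * √(N : ℝ) - 1| ≤ δ → ∀ z : ℕ → ℤ, PM N z →
      (∀ k ≤ N, |a * z k - B ((k : ℝ≥0) / N) ω| ≤ δ) → Φ N z ≤ y ω + ε) {ε : ℝ} (hε : 0 < ε) :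
    ∀ᶠ N in atTop, K ∣ N → ∫ ω, Φ N (fun k => walk ξ k ω) ∂P ≤ ∫ ω, y ω ∂P' + ε := by
  have := hB.prob
  have hC := C0_nonneg hΦ
  set u : ℕ → ℕ → Ω' → ℝ := fun n M ω => Hf K Φ C0 (1 / (n + 1)) n M
    (fun j => B (((j : ℕ) + 1 : ℕ) / (M : ℝ≥0)) ω - B ((j : ℕ) / (M : ℝ≥0)) ω) with hu
  set g : ℕ → Ω' → ℝ := fun n ω => limsup (fun M => u n M ω) atTop with hg
  have hηpos : ∀ n : ℕ, (0:ℝ) < 1 / (n + 1) := fun n => by positivity
  have hum : ∀ n M, Measurable (u n M) := fun n M =>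
    (Hf_cont hK hΦ (hηpos n) n M).measurable.comp
      (measurable_pi_lambda _ fun j => (hB.meas _).sub (hB.meas _))
  have hub : ∀ n M ω, |u n M ω| ≤ 3 * C0 := fun n M ω => Hf_abs hK hΦ n M _
  have hbdd : ∀ n ω, IsBoundedUnder (· ≤ ·) atTop (fun M => u n M ω) := fun n ω =>
    ⟨3 * C0, Filter.eventually_map.mpr (Eventually.of_forall fun M => (abs_le.mp (hub n M ω)).2)⟩
  have hbdd' : ∀ n ω, IsBoundedUnder (· ≥ ·) atTop (fun M => u n M ω) := fun n ω =>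
    ⟨-(3 * C0), Filter.eventually_map.mpr (Eventually.of_forall fun M => (abs_le.mp (hub n M ω)).1)⟩
  have hcob : ∀ n ω, IsCoboundedUnder (· ≤ ·) atTop (fun M => u n M ω) := fun n ω =>
    (hbdd' n ω).isCoboundedUnder_le
  have hgm : ∀ n, Measurable (g n) := fun n => Measurable.limsup (hum n)
  have hgb : ∀ n ω, |g n ω| ≤ 3 * C0 := by
    intro n ω
    rw [abs_le]
    constructor
    · exact le_limsup_of_frequently_le
        (Eventually.frequently (Eventually.of_forall fun M => (abs_le.mp (hub n M ω)).1))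
        (hbdd n ω)
    · exact limsup_le_of_le (hcob n ω) (Eventually.of_forall fun M => (abs_le.mp (hub n M ω)).2)
  -- n → ∞
  have hA : ∀ᶠ n in atTop, ∫ ω, g n ω ∂P' ≤ ∫ ω, y ω ∂P' + ε / 4 := by
    refine revFatou (C := 3 * C0) (fun n => (hgm n).aestronglyMeasurable) hym hgb
      (fun ω => (hy ω).trans (by linarith)) ?_ (by positivity)
    filter_upwards [hst] with ω hω ε' hε'
    obtain ⟨δ, hδ, N0, hN0⟩ := hω ε' hε'
    obtain ⟨n1, hn1⟩ := exists_nat_gt (3 / δ)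
    filter_upwards [eventually_ge_atTop (max N0 n1)] with n hn
    have hnN0 : N0 ≤ n := (le_max_left _ _).trans hn
    have hnn1 : n1 ≤ n := (le_max_right _ _).trans hn
    have h3η : 3 * (1 / ((n:ℝ) + 1)) ≤ δ := by
      have h1 : (n1 : ℝ) ≤ n := by exact_mod_cast hnn1
      have h2 : 3 / δ < (n:ℝ) + 1 := by linarith
      rw [div_lt_iff₀ hδ] at h2
      rw [mul_one_div, div_le_iff₀ (by positivity)]
      linarith
    have h1η : 1 / ((n:ℝ) + 1) ≤ δ := by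
      have : (0:ℝ) < 1 / ((n:ℝ) + 1) := hηpos n
      linarith
    refine limsup_le_of_le (hcob n ω) ?_
    filter_upwards [osc_le (hB.cont ω) (hηpos n)] with M hM
    exact Hf_limit (f := fun t => B t ω) hK hΦ (hηpos n) (hB.zero ω) (abs_le.mp (hy ω)).1 hε'.le
      (fun N hN hN' hKN a ha haN z hz hclose => hN0 N (hnN0.trans hN) hN' hKN a ha
        (haN.trans h1η) z hz fun k hk => (hclose k hk).trans h3η) hM
  obtain ⟨n, hn⟩ := hA.exists
  -- M → ∞
  have hBev : ∀ᶠ M in atTop, ∫ ω, u n M ω ∂P' ≤ ∫ ω, g n ω ∂P' + ε / 4 := by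
    refine revFatou (C := 3 * C0) (fun M => (hum n M).aestronglyMeasurable)
      (hgm n).aestronglyMeasurable (hub n) (hgb n) ?_ (by positivity)
    filter_upwards with ω ε' hε'
    have h1 : limsup (fun M => u n M ω) atTop < g n ω + ε' := by
      simp only [hg]; linarith
    filter_upwards [eventually_lt_of_limsup_lt h1 (hbdd n ω)] with M hM using hM.le
  have hCev : ∀ᶠ M : ℕ in atTop,
      2 * C0 * (((M : ℝ) + 1) * (4 * Real.exp (-((1 / ((n:ℝ) + 1)) ^ 2 * M / 16)))) < ε / 4 :=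
    (tail_tendsto C0 (hηpos n)).eventually (Iio_mem_nhds (by positivity))
  obtain ⟨M, ⟨hM1, hM2⟩, hM3⟩ := ((hBev.and hCev).and (eventually_gt_atTop 0)).exists
  filter_upwards [step_one hK h hB hΦ hloc (hηpos n) n hM3 (ε := ε / 4) (by positivity)] with N hN hKN
  have hN' : ∫ ω, Φ N (fun k => walk ξ k ω) ∂P ≤ ∫ ω, u n M ω ∂P' + ε / 4 +
    2 * C0 * (((M : ℝ) + 1) * (4 * Real.exp (-((1 / ((n:ℝ) + 1)) ^ 2 * M / 16)))) := hN hKN
  linarith

end

end Pool.Agent.R986.BP
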